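import Mathlib

/-! Multi-scale lattices on the line: level `n` lines are the points `t` with
`t * l ^ n + 1/2` an integer, where `l` is an odd multiple of `9`. -/

namespace Pool.Agent.H983R3

/-- Scale parameters: an odd multiple of nine. -/
structure Par where
  lam : ℤ
  c : ℤ
  mu : ℤ
  hodd : lam = 2 * c + 1
  h9 : lam = 9 * mu
  hpos : 0 < mu

namespace Par

variable (P : Par)

/-- the scale factor as a real number -/
noncomputable def l : ℝ := (P.lam : ℝ)

lemma nine_le_lam : 9 ≤ P.lam := by have := P.h9; have := P.hpos; omega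

lemma nine_le_l : (9 : ℝ) ≤ P.l := by
  have := P.nine_le_lam
  unfold l; exact_mod_cast this

lemma l_pos : 0 < P.l := by have := P.nine_le_l; linarith

lemma l_ne : P.l ≠ 0 := P.l_pos.ne'

/-- the spacing of level `n` lines -/
noncomputable def u (n : ℤ) : ℝ := P.l ^ (-n)

lemma u_pos (n : ℤ) : 0 < P.u n := zpow_pos P.l_pos _

lemma u_succ (n : ℤ) : P.u n = P.l * P.u (n + 1) := by
  unfold u
  rw [neg_add, zpow_add₀ P.l_ne, zpow_neg_one]
  field_simp [P.l_ne]

lemma u_anti {m n : ℤ} (h : m ≤ n) : P.u n ≤ P.u m := by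
  unfold u
  apply zpow_le_zpow_right₀ (by have := P.nine_le_l; linarith) (by omega)

lemma u_le_ninth (n : ℤ) : 9 * P.u (n + 1) ≤ P.u n := by
  rw [P.u_succ n]
  have := P.u_pos (n+1)
  have := P.nine_le_l
  nlinarith

lemma u_lt_ninth {m n : ℤ} (h : m < n) : 9 * P.u n ≤ P.u m := by
  have h1 := P.u_le_ninth m
  have h2 := P.u_anti (show m + 1 ≤ n by omega)
  linarith

lemma u_mul (n : ℤ) : P.u n * P.l ^ n = 1 := by
  unfold u
  rw [← zpow_add₀ P.l_ne]; simp

/-- level `n` coordinate -/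
noncomputable def tau (n : ℤ) (t : ℝ) : ℝ := t * P.l ^ n + 1 / 2

lemma tau_succ (n : ℤ) (t : ℝ) : P.tau (n + 1) t = P.lam * P.tau n t - P.c := by
  unfold tau
  rw [zpow_add_one₀ P.l_ne]
  have h : (P.lam : ℝ) = 2 * P.c + 1 := by exact_mod_cast P.hodd
  unfold l
  rw [mul_add]
  have : (P.c : ℝ) = (P.lam - 1) / 2 := by linarith
  rw [this]; ring

/-- `t` is a level `n` line -/
def L1 (n : ℤ) (t : ℝ) : Prop := ∃ i : ℤ, P.tau n t = i

/-- the point with level `n` coordinate `i` -/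
noncomputable def pt (n : ℤ) (i : ℤ) : ℝ := ((i : ℝ) - 1 / 2) * P.u n

lemma tau_pt (n i : ℤ) : P.tau n (P.pt n i) = i := by
  unfold tau pt
  rw [mul_assoc, P.u_mul]; ring

lemma L1_pt (n i : ℤ) : P.L1 n (P.pt n i) := ⟨i, P.tau_pt n i⟩

lemma tau_sub (n : ℤ) (s t : ℝ) : P.tau n s - P.tau n t = (s - t) * P.l ^ n := by
  unfold tau; ring

lemma tau_add (n : ℤ) (s t : ℝ) : P.tau n (s + t) = P.tau n s + t * P.l ^ n := by
  unfold tau; ring

lemma tau_mono {n : ℤ} {s t : ℝ} : s ≤ t ↔ P.tau n s ≤ P.tau n t := by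
  unfold tau
  have : 0 < P.l ^ n := zpow_pos P.l_pos _
  constructor
  · intro h; nlinarith
  · intro h
    have : s * P.l ^ n ≤ t * P.l ^ n := by linarith
    exact le_of_mul_le_mul_right this (by assumption)

lemma tau_strict {n : ℤ} {s t : ℝ} : s < t ↔ P.tau n s < P.tau n t := by
  rw [← not_le, ← not_le, P.tau_mono (n := n)]

lemma L1_succ {n : ℤ} {t : ℝ} (h : P.L1 n t) : P.L1 (n + 1) t := by
  obtain ⟨i, hi⟩ := h
  refine ⟨P.lam * i - P.c, ?_⟩
  rw [P.tau_succ, hi]; push_cast; ring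

lemma L1_mono {m n : ℤ} (h : m ≤ n) {t : ℝ} (ht : P.L1 m t) : P.L1 n t := by
  obtain ⟨k, rfl⟩ := Int.le.dest h
  induction k with
  | zero => simpa using ht
  | succ k ih =>
    have := P.L1_succ (ih (by omega))
    have e : m + ((k + 1 : ℕ) : ℤ) = m + (k : ℤ) + 1 := by push_cast; ring
    rw [e]; exact this

/-- separation of lines -/
lemma L1_sep {n : ℤ} {s t : ℝ} (hs : P.L1 n s) (ht : P.L1 n t) (h : |s - t| < P.u n) : s = t := by
  obtain ⟨i, hi⟩ := hs
  obtain ⟨j, hj⟩ := ht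
  have h1 : |P.tau n s - P.tau n t| < 1 := by
    rw [P.tau_sub, abs_mul, abs_of_pos (zpow_pos P.l_pos n)]
    have := P.u_mul n
    have h2 : 0 < P.l ^ n := zpow_pos P.l_pos _
    calc |s - t| * P.l ^ n < P.u n * P.l ^ n := by exact mul_lt_mul_of_pos_right h h2
      _ = 1 := this
  rw [hi, hj] at h1
  have h3 : |i - j| < 1 := by exact_mod_cast h1
  have h4 : i = j := by
    have := abs_lt.mp h3
    omega
  subst h4
  have h5 : P.tau n s ≤ P.tau n t := by rw [hi, hj]
  have h6 : P.tau n t ≤ P.tau n s := by rw [hi, hj]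
  exact le_antisymm (P.tau_mono.mpr h5) (P.tau_mono.mpr h6)

/-- pixel index at level n -/
noncomputable def pix (n : ℤ) (t : ℝ) : ℤ := ⌊P.tau n t⌋

lemma le_pix {n i : ℤ} {t : ℝ} : i ≤ P.pix n t ↔ P.pt n i ≤ t := by
  unfold pix
  rw [Int.le_floor, ← P.tau_pt n i, ← P.tau_mono]

lemma pix_mono {n : ℤ} {s t : ℝ} (h : s ≤ t) : P.pix n s ≤ P.pix n t :=
  Int.floor_le_floor (P.tau_mono.mp h)

/-- special lines at level `k`: those of coordinate `2` modulo `3` -/
def Sp (k : ℤ) (w : ℝ) : Prop := ∃ a : ℤ, P.tau k w = ((3 * a + 2 : ℤ) : ℝ)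

/-- block index: only changes across special lines -/
noncomputable def eb (k : ℤ) (t : ℝ) : ℤ := (P.pix k t + 1) / 3

/-- cell index: only changes across lines of coordinate `0` modulo `3` -/
noncomputable def cell (k : ℤ) (t : ℝ) : ℤ := P.pix k t / 3

lemma sp_le {k : ℤ} {w : ℝ} (hw : P.Sp k w) {t t' : ℝ} (h : P.eb k t = P.eb k t')
    (hle : w ≤ t) : w ≤ t' := by
  obtain ⟨a, ha⟩ := hw
  have e : w = P.pt k (3 * a + 2) := by
    have h1 : P.tau k w = P.tau k (P.pt k (3 * a + 2)) := by rw [ha, P.tau_pt]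
    exact le_antisymm (P.tau_mono.mpr h1.le) (P.tau_mono.mpr h1.ge)
  rw [e] at hle ⊢
  rw [← P.le_pix] at hle ⊢
  unfold eb at h
  omega

lemma sp_le_iff {k : ℤ} {w : ℝ} (hw : P.Sp k w) {t t' : ℝ} (h : P.eb k t = P.eb k t') :
    w ≤ t ↔ w ≤ t' := ⟨P.sp_le hw h, P.sp_le hw h.symm⟩

/-- old lines are special -/
lemma sp_of_L1 {j k : ℤ} (hjk : j < k) {w : ℝ} (hw : P.L1 j w) : P.Sp k w := by
  have h1 : P.L1 (k - 1) w := P.L1_mono (by omega) hw
  obtain ⟨i, hi⟩ := h1
  have h2 := P.tau_succ (k - 1) w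
  rw [sub_add_cancel, hi] at h2
  have h3 := P.h9
  have h4 := P.hodd
  refine ⟨(P.lam * i - P.c - 2) / 3, ?_⟩
  rw [h2]
  have h5 : (P.lam * i - P.c - 2) % 3 = 0 := by
    have e : P.lam * i = 3 * (3 * (P.mu * i)) := by rw [h3]; ring
    omega
  have h6 : 3 * ((P.lam * i - P.c - 2) / 3) + 2 = P.lam * i - P.c := by omega
  rw [h6]; push_cast; ring

/-- boundaries of the rings are special lines -/
lemma sp_ring {k : ℤ} {p : ℝ} (hp : P.L1 (k - 1) p) (s : ℤ) :
    P.Sp k (p + s * (P.u (k - 1) / 3)) := by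
  obtain ⟨a, ha⟩ := P.sp_of_L1 (show k - 1 < k by omega) hp
  refine ⟨a + s * P.mu, ?_⟩
  rw [P.tau_add, ha]
  have e : P.u (k - 1) = P.l * P.u k := by
    have := P.u_succ (k-1)
    rwa [sub_add_cancel] at this
  have e2 := P.u_mul k
  have e3 : P.l = 9 * (P.mu : ℝ) := by unfold l; exact_mod_cast P.h9
  have e4 : (s:ℝ) * (P.u (k - 1) / 3) * P.l ^ k = s * (3 * P.mu) := by
    rw [e]
    calc (s:ℝ) * (P.l * P.u k / 3) * P.l ^ k = s * P.l / 3 * (P.u k * P.l ^ k) := by ring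
      _ = s * P.l / 3 := by rw [e2]; ring
      _ = s * (3 * P.mu) := by rw [e3]; ring
  rw [e4]; push_cast; ring

lemma pix_eq_of_eb {j k : ℤ} (hjk : j < k) {t t' : ℝ} (h : P.eb k t = P.eb k t') :
    P.pix j t = P.pix j t' := by
  apply le_antisymm
  · rw [P.le_pix, ← P.sp_le_iff (P.sp_of_L1 hjk (P.L1_pt j _)) h, ← P.le_pix]
  · rw [P.le_pix, P.sp_le_iff (P.sp_of_L1 hjk (P.L1_pt j _)) h, ← P.le_pix]

lemma pix_eq_of_pix {j k : ℤ} (hjk : j ≤ k) {t t' : ℝ} (h : P.pix k t = P.pix k t') :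
    P.pix j t = P.pix j t' := by
  rcases hjk.lt_or_eq with h1 | h1
  · apply P.pix_eq_of_eb h1
    unfold eb; rw [h]
  · rw [h1]; exact h

/-- position of nearby points relative to a line -/
lemma near_ge {N k : ℤ} (hk : k ≤ N) {v y : ℝ} (hv : P.L1 N v) (h : |y - v| < P.u N)
    (hvy : v ≤ y) : P.pix k y = P.pix k v := by
  apply le_antisymm _ (P.pix_mono hvy)
  by_contra hcon
  push Not at hcon
  have h1 : P.pix k v + 1 ≤ P.pix k y := hcon
  rw [P.le_pix] at h1
  have h2 : v < P.pt k (P.pix k v + 1) := by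
    by_contra h3
    push Not at h3
    rw [← P.le_pix] at h3
    omega
  have h4 : P.L1 N (P.pt k (P.pix k v + 1)) := P.L1_mono hk (P.L1_pt _ _)
  have h5 : |P.pt k (P.pix k v + 1) - v| < P.u N := by
    rw [abs_lt] at h ⊢; constructor <;> linarith [h.1, h.2]
  have := P.L1_sep h4 hv h5
  linarith

lemma near_lt_not {N k : ℤ} (hk : k ≤ N) {v y : ℝ} (hv : P.L1 N v) (h : |y - v| < P.u N)
    (hvk : ¬ P.L1 k v) : P.pix k y = P.pix k v := by
  rcases le_or_gt v y with hvy | hvy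
  · exact P.near_ge hk hv h hvy
  apply le_antisymm (P.pix_mono hvy.le)
  by_contra hcon
  push Not at hcon
  have h1 : y < P.pt k (P.pix k v) := by
    by_contra h3
    push Not at h3
    rw [← P.le_pix] at h3
    omega
  have h2 : P.pt k (P.pix k v) ≤ v := by rw [← P.le_pix]
  have h4 : P.L1 N (P.pt k (P.pix k v)) := P.L1_mono hk (P.L1_pt _ _)
  have h5 : |P.pt k (P.pix k v) - v| < P.u N := by
    rw [abs_lt] at h ⊢; constructor <;> linarith [h.1, h.2]
  have := P.L1_sep h4 hv h5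
  exact hvk (this ▸ P.L1_pt _ _)

lemma near_lt {N k : ℤ} (hk : k ≤ N) {v y : ℝ} (hv : P.L1 N v) (h : |y - v| < P.u N)
    (hvk : P.L1 k v) (hvy : y < v) : P.pix k y = P.pix k v - 1 := by
  have h0 : P.pix k y < P.pix k v := by
    obtain ⟨i, hi⟩ := hvk
    have : P.pix k v = i := by unfold pix; rw [hi]; simp
    rw [this]
    unfold pix
    rw [Int.floor_lt, ← hi]
    exact P.tau_strict.mp hvy
  apply le_antisymm (by omega)
  by_contra hcon
  push Not at hcon
  have h1 : y < P.pt k (P.pix k v - 1) := by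
    by_contra h3
    push Not at h3
    rw [← P.le_pix] at h3
    omega
  have h2 : P.pt k (P.pix k v - 1) < v := by
    have h3 : P.pt k (P.pix k v) ≤ v := by rw [← P.le_pix]
    have h4 : P.pt k (P.pix k v - 1) < P.pt k (P.pix k v) := by
      rw [P.tau_strict (n := k), P.tau_pt, P.tau_pt]; push_cast; linarith
    linarith
  have h4 : P.L1 N (P.pt k (P.pix k v - 1)) := P.L1_mono hk (P.L1_pt _ _)
  have h5 : |P.pt k (P.pix k v - 1) - v| < P.u N := by
    rw [abs_lt] at h ⊢; constructor <;> linarith [h.1, h.2]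
  have := P.L1_sep h4 hv h5
  linarith

/-- the cell index of a finer level does not change near an old line -/
lemma cell_near_old {n : ℤ} {q y : ℝ} (hq : P.L1 n q) (h : |y - q| < P.u (n + 1)) :
    P.cell (n + 1) y = P.cell (n + 1) q := by
  have hq' : P.L1 (n + 1) q := P.L1_succ hq
  unfold cell
  rcases le_or_gt q y with h1 | h1
  · rw [P.near_ge le_rfl hq' h h1]
  · rw [P.near_lt le_rfl hq' h hq' h1]
    obtain ⟨a, ha⟩ := P.sp_of_L1 (show n < n + 1 by omega) hq
    have : P.pix (n + 1) q = 3 * a + 2 := by unfold pix; rw [ha]; exact Int.floor_intCast _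
    omega

end Par

end Pool.Agent.H983R3
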