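import Pool.Agent.H983R3.Core1

/-! The planar structure: lattices, birth levels, labels, and the multiplicity bound. -/

namespace Pool.Agent.H983R3

/-- labels: a level together with a cell of that level -/
abbrev Label := ℤ × (ℤ × ℤ)

namespace Par

variable (P : Par)

/-- level `n` lattice points of the plane -/
def Lat (n : ℤ) (p : ℝ × ℝ) : Prop := P.L1 n p.1 ∧ P.L1 n p.2

lemma Lat_mono {m n : ℤ} (h : m ≤ n) {p : ℝ × ℝ} (hp : P.Lat m p) : P.Lat n p :=
  ⟨P.L1_mono h hp.1, P.L1_mono h hp.2⟩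

/-- coordinatewise closeness -/
def cl (ρ : ℝ) (q y : ℝ × ℝ) : Prop := |y.1 - q.1| < ρ ∧ |y.2 - q.2| < ρ

lemma cl_mono {ρ σ : ℝ} (h : ρ ≤ σ) {q y : ℝ × ℝ} (hy : cl ρ q y) : cl σ q y :=
  ⟨hy.1.trans_le h, hy.2.trans_le h⟩

lemma cl_tri {ρ σ : ℝ} {a b c : ℝ × ℝ} (h1 : cl ρ a b) (h2 : cl σ b c) : cl (ρ + σ) a c := by
  constructor
  · have := abs_sub_le c.1 b.1 a.1; linarith [h1.1, h2.1]
  · have := abs_sub_le c.2 b.2 a.2; linarith [h1.2, h2.2]

lemma cl_symm {ρ : ℝ} {a b : ℝ × ℝ} (h1 : cl ρ a b) : cl ρ b a := by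
  constructor
  · rw [abs_sub_comm]; exact h1.1
  · rw [abs_sub_comm]; exact h1.2

/-- half open square box -/
def In (ρ : ℝ) (p y : ℝ × ℝ) : Prop :=
  (p.1 - ρ ≤ y.1 ∧ y.1 < p.1 + ρ) ∧ (p.2 - ρ ≤ y.2 ∧ y.2 < p.2 + ρ)

lemma In_le {ρ : ℝ} {p y : ℝ × ℝ} (h : In ρ p y) : |y.1 - p.1| ≤ ρ ∧ |y.2 - p.2| ≤ ρ := by
  obtain ⟨⟨h1, h2⟩, h3, h4⟩ := h
  constructor <;> rw [abs_le] <;> constructor <;> linarith

lemma In_cl {ρ σ : ℝ} (hs : ρ < σ) {p y : ℝ × ℝ} (h : In ρ p y) : cl σ p y :=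
  ⟨(In_le h).1.trans_lt hs, (In_le h).2.trans_lt hs⟩

lemma cl_In {ρ : ℝ} {p y : ℝ × ℝ} (h : cl ρ p y) : In ρ p y := by
  obtain ⟨h1, h2⟩ := h
  rw [abs_lt] at h1 h2
  exact ⟨⟨by linarith, by linarith⟩, by linarith, by linarith⟩

lemma Lat_sep {n : ℤ} {p q : ℝ × ℝ} (hp : P.Lat n p) (hq : P.Lat n q)
    (h : cl (P.u n) q p) : p = q :=
  Prod.ext (P.L1_sep hp.1 hq.1 h.1) (P.L1_sep hp.2 hq.2 h.2)

lemma Lat_bdd (p : ℝ × ℝ) : BddBelow {k : ℤ | P.Lat k p} := by
  -- for very coarse levels the point zero is too close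
  obtain ⟨m, hm⟩ := pow_unbounded_of_one_lt (2 * |p.1| + 1)
    (show (1 : ℝ) < P.l by have := P.nine_le_l; linarith)
  refine ⟨-(m : ℤ), ?_⟩
  intro k hk
  by_contra hcon
  push Not at hcon
  obtain ⟨i, hi⟩ := hk.1
  have h1 : (P.l ^ m : ℝ) ≤ P.u k := by
    have : P.u (-(m:ℤ)) ≤ P.u k := P.u_anti hcon.le
    unfold u at this ⊢
    simpa using this
  have h2 : p.1 = ((i : ℝ) - 1/2) * P.u k := by
    unfold tau at hi
    have h3 : p.1 * P.l ^ k = (i : ℝ) - 1/2 := by linarith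
    rw [← h3, mul_assoc, mul_comm (P.l ^ k), P.u_mul, mul_one]
  have h4 : (1:ℝ)/2 ≤ |(i : ℝ) - 1/2| := by
    rcases le_or_gt i 0 with h | h
    · have : (i:ℝ) ≤ 0 := by exact_mod_cast h
      rw [abs_of_neg (by linarith)]; linarith
    · have : (1:ℝ) ≤ i := by exact_mod_cast h
      rw [abs_of_pos (by linarith)]; linarith
  have h5 : |p.1| = |(i : ℝ) - 1/2| * P.u k := by
    rw [h2, abs_mul, abs_of_pos (P.u_pos k)]
  have h6 := P.u_pos k
  nlinarith

/-- birth level of a lattice point -/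
noncomputable def kap (p : ℝ × ℝ) : ℤ := sInf {k : ℤ | P.Lat k p}

lemma kap_mem {n : ℤ} {p : ℝ × ℝ} (h : P.Lat n p) : P.Lat (P.kap p) p :=
  Int.csInf_mem ⟨n, h⟩ (P.Lat_bdd p)

lemma kap_le {n : ℤ} {p : ℝ × ℝ} (h : P.Lat n p) : P.kap p ≤ n :=
  csInf_le (P.Lat_bdd p) h

lemma kap_not {n : ℤ} {p : ℝ × ℝ} (h : n < P.kap p) : ¬ P.Lat n p := fun h' => by
  have := P.kap_le h'; omega

/-- the cell of level `k` containing a point -/
noncomputable def Q (k : ℤ) (y : ℝ × ℝ) : ℤ × ℤ := (P.cell k y.1, P.cell k y.2)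

open Classical in
/-- base label at level `n` -/
noncomputable def b (n : ℤ) (y : ℝ × ℝ) : Label :=
  if h : ∃ p, P.Lat (n - 1) p ∧ In (P.u n / 3) p y then
    (P.kap h.choose, P.Q (P.kap h.choose) y) else (n, P.Q n y)

open Classical in
/-- full label at level `n` -/
noncomputable def ell (n : ℤ) (y : ℝ × ℝ) : Label :=
  if h : ∃ q, P.Lat n q ∧ cl (P.u (n + 1) / 9) q y then P.b (P.kap h.choose - 1) y
  else P.b n y

lemma b_in {n : ℤ} {p y : ℝ × ℝ} (hp : P.Lat (n - 1) p) (hy : In (P.u n / 3) p y) :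
    P.b n y = (P.kap p, P.Q (P.kap p) y) := by
  have h : ∃ p, P.Lat (n - 1) p ∧ In (P.u n / 3) p y := ⟨p, hp, hy⟩
  have hu := P.u_pos n
  have hu2 : P.u n ≤ P.u (n - 1) := P.u_anti (by omega)
  have e : h.choose = p := by
    apply P.Lat_sep h.choose_spec.1 hp
    have h1 := cl_symm (In_cl (show P.u n / 3 < P.u n / 2 by linarith) h.choose_spec.2)
    have h2 := In_cl (show P.u n / 3 < P.u n / 2 by linarith) hy
    exact cl_mono (by linarith) (cl_tri h2 h1)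
  unfold b
  rw [dif_pos h, e]

lemma b_out {n : ℤ} {y : ℝ × ℝ} (h : ¬ ∃ p, P.Lat (n - 1) p ∧ In (P.u n / 3) p y) :
    P.b n y = (n, P.Q n y) := by
  unfold b
  rw [dif_neg h]

lemma ell_in {n : ℤ} {q y : ℝ × ℝ} (hq : P.Lat n q) (hy : cl (P.u (n + 1) / 9) q y) :
    P.ell n y = P.b (P.kap q - 1) y := by
  have h : ∃ q, P.Lat n q ∧ cl (P.u (n + 1) / 9) q y := ⟨q, hq, hy⟩
  have hu := P.u_pos (n + 1)
  have hu2 := P.u_le_ninth n
  have e : h.choose = q := by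
    apply P.Lat_sep h.choose_spec.1 hq
    exact cl_mono (by linarith) (cl_tri hy (cl_symm h.choose_spec.2))
  unfold ell
  rw [dif_pos h, e]

lemma ell_out {n : ℤ} {y : ℝ × ℝ} (h : ¬ ∃ q, P.Lat n q ∧ cl (P.u (n + 1) / 9) q y) :
    P.ell n y = P.b n y := by
  unfold ell
  rw [dif_neg h]

/-- Lemma A: the base label near a lattice point. -/
lemma b_near {n : ℤ} {q y : ℝ × ℝ} (hq : P.Lat n q) (hy : cl (P.u (n + 1)) q y) :
    P.b n y = (P.kap q, P.Q (P.kap q) y) := by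
  have hu := P.u_pos (n + 1)
  have hu2 := P.u_le_ninth n
  rcases (P.kap_le hq).lt_or_eq with h | h
  · have hq' : P.Lat (n - 1) q := P.Lat_mono (by omega) (P.kap_mem hq)
    exact P.b_in hq' (cl_In (cl_mono (by linarith) hy))
  · rw [P.b_out, h]
    rintro ⟨p, hp, hpy⟩
    have h1 : P.Lat n p := P.Lat_mono (by omega) hp
    have h2 : p = q := by
      apply P.Lat_sep h1 hq
      have h3 := cl_symm (In_cl (show P.u n / 3 < P.u n / 2 by linarith) hpy)
      exact cl_mono (by linarith) (cl_tri hy h3)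
    subst h2
    exact P.kap_not (show n - 1 < P.kap p by omega) hp

/-- the base label of level `k - 1` only depends on the blocks of level `k` -/
lemma b_eq_of_eb {k : ℤ} {y y' : ℝ × ℝ} (h1 : P.eb k y.1 = P.eb k y'.1)
    (h2 : P.eb k y.2 = P.eb k y'.2) : P.b (k - 1) y = P.b (k - 1) y' := by
  have key : ∀ p, P.Lat (k - 1 - 1) p →
      (In (P.u (k - 1) / 3) p y ↔ In (P.u (k - 1) / 3) p y') := by
    intro p hp
    have hp' : P.Lat (k - 1) p := P.Lat_mono (by omega) hp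
    have a1 := P.sp_ring hp'.1 (-1)
    have a2 := P.sp_ring hp'.1 1
    have a3 := P.sp_ring hp'.2 (-1)
    have a4 := P.sp_ring hp'.2 1
    have e1 : p.1 + ((-1 : ℤ) : ℝ) * (P.u (k - 1) / 3) = p.1 - P.u (k - 1) / 3 := by
      push_cast; ring
    have e2 : p.1 + ((1 : ℤ) : ℝ) * (P.u (k - 1) / 3) = p.1 + P.u (k - 1) / 3 := by
      push_cast; ring
    have e3 : p.2 + ((-1 : ℤ) : ℝ) * (P.u (k - 1) / 3) = p.2 - P.u (k - 1) / 3 := by
      push_cast; ring
    have e4 : p.2 + ((1 : ℤ) : ℝ) * (P.u (k - 1) / 3) = p.2 + P.u (k - 1) / 3 := by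
      push_cast; ring
    rw [e1] at a1; rw [e2] at a2; rw [e3] at a3; rw [e4] at a4
    unfold In
    rw [P.sp_le_iff a1 h1, P.sp_le_iff a3 h2, ← not_le, ← not_le, ← not_le, ← not_le,
      P.sp_le_iff a2 h1, P.sp_le_iff a4 h2]
  have hpix : ∀ j < k, P.Q j y = P.Q j y' := by
    intro j hj
    unfold Q cell
    rw [P.pix_eq_of_eb hj h1, P.pix_eq_of_eb hj h2]
  by_cases h : ∃ p, P.Lat (k - 1 - 1) p ∧ In (P.u (k - 1) / 3) p y
  · obtain ⟨p, hp, hpy⟩ := h
    rw [P.b_in hp hpy, P.b_in hp ((key p hp).mp hpy)]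
    have : P.kap p < k := by
      have := P.kap_le hp; omega
    rw [hpix _ this]
  · have h' : ¬ ∃ p, P.Lat (k - 1 - 1) p ∧ In (P.u (k - 1) / 3) p y' := by
      rintro ⟨p, hp, hpy⟩
      exact h ⟨p, hp, (key p hp).mpr hpy⟩
    rw [P.b_out h, P.b_out h', hpix _ (by omega)]

lemma b_eq_of_pix {k : ℤ} {y y' : ℝ × ℝ} (h1 : P.pix k y.1 = P.pix k y'.1)
    (h2 : P.pix k y.2 = P.pix k y'.2) : P.b (k - 1) y = P.b (k - 1) y' := by
  apply P.b_eq_of_eb <;> unfold eb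
  · rw [h1]
  · rw [h2]

/-- same pixel at level k -/
def same (k : ℤ) (y y' : ℝ × ℝ) : Prop :=
  P.pix k y.1 = P.pix k y'.1 ∧ P.pix k y.2 = P.pix k y'.2

lemma same_mono {j k : ℤ} (h : j ≤ k) {y y' : ℝ × ℝ} (hs : P.same k y y') : P.same j y y' :=
  ⟨P.pix_eq_of_pix h hs.1, P.pix_eq_of_pix h hs.2⟩

lemma Q_same {k : ℤ} {y y' : ℝ × ℝ} (hs : P.same k y y') : P.Q k y = P.Q k y' := by
  unfold Q cell; rw [hs.1, hs.2]

/-- Lemma Two: near a point which is not a level `k` lattice point there are at most two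
pixels of level `k`, and they are in the same old block or in the same cell. -/
lemma two {N k : ℤ} (hk : k ≤ N) {v : ℝ × ℝ} (hv : P.Lat N v) (hvk : ¬ P.Lat k v) :
    ∃ w : ℝ × ℝ, (∀ y, cl (P.u N) v y → P.same k y v ∨ P.same k y w) ∧
      (P.b (k - 1) v = P.b (k - 1) w ∨ P.Q k v = P.Q k w) := by
  have hu := P.u_pos N
  have hhalf : |(v.1 - P.u N / 2) - v.1| < P.u N := by
    rw [abs_lt]; constructor <;> linarith
  have hhalf2 : |(v.2 - P.u N / 2) - v.2| < P.u N := by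
    rw [abs_lt]; constructor <;> linarith
  by_cases h1 : P.L1 k v.1
  · have h2 : ¬ P.L1 k v.2 := fun h => hvk ⟨h1, h⟩
    refine ⟨(v.1 - P.u N / 2, v.2), ?_, ?_⟩
    · intro y hy
      have e2 : P.pix k y.2 = P.pix k v.2 := P.near_lt_not hk hv.2 hy.2 h2
      rcases le_or_gt v.1 y.1 with h | h
      · left; exact ⟨P.near_ge hk hv.1 hy.1 h, e2⟩
      · right
        refine ⟨?_, e2⟩
        rw [P.near_lt hk hv.1 hy.1 h1 h]
        rw [P.near_lt hk hv.1 (y := v.1 - P.u N / 2) hhalf h1 (by linarith)]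
    · have e := P.near_lt hk hv.1 (y := v.1 - P.u N / 2) hhalf h1 (by linarith)
      by_cases hm : P.pix k v.1 % 3 = 0
      · left
        apply P.b_eq_of_eb
        · unfold eb; simp only; rw [e]; omega
        · rfl
      · right
        unfold Q cell
        simp only
        rw [e]
        congr 1
        omega
  · refine ⟨(v.1, v.2 - P.u N / 2), ?_, ?_⟩
    · intro y hy
      have e1 : P.pix k y.1 = P.pix k v.1 := P.near_lt_not hk hv.1 hy.1 h1
      rcases le_or_gt v.2 y.2 with h | h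
      · left; exact ⟨e1, P.near_ge hk hv.2 hy.2 h⟩
      · right
        refine ⟨e1, ?_⟩
        by_cases h2 : P.L1 k v.2
        · rw [P.near_lt hk hv.2 hy.2 h2 h]
          rw [P.near_lt hk hv.2 (y := v.2 - P.u N / 2) hhalf2 h2 (by linarith)]
        · rw [P.near_lt_not hk hv.2 hy.2 h2]
          rw [P.near_lt_not hk hv.2 (y := v.2 - P.u N / 2) hhalf2 h2]
    · by_cases h2 : P.L1 k v.2
      · have e := P.near_lt hk hv.2 (y := v.2 - P.u N / 2) hhalf2 h2 (by linarith)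
        by_cases hm : P.pix k v.2 % 3 = 0
        · left
          apply P.b_eq_of_eb
          · rfl
          · unfold eb; simp only; rw [e]; omega
        · right
          unfold Q cell
          simp only
          rw [e]
          congr 1
          omega
      · left
        have e := P.near_lt_not hk hv.2 (y := v.2 - P.u N / 2) hhalf2 h2
        apply P.b_eq_of_pix
        · rfl
        · simp only; rw [e]

/-- Lemma M -/
lemma multM {N k : ℤ} (hk : k ≤ N) {v : ℝ × ℝ} (hv : P.Lat N v) (hvk : ¬ P.Lat k v) :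
    ∃ s : Finset Label, s.card ≤ 3 ∧
      ∀ y, cl (P.u N) v y → P.b (k - 1) y ∈ s ∧ (k, P.Q k y) ∈ s := by
  classical
  obtain ⟨w, hw, hex⟩ := P.two hk hv hvk
  rcases hex with hex | hex
  · refine ⟨{P.b (k - 1) v, (k, P.Q k v), (k, P.Q k w)}, Finset.card_le_three, ?_⟩
    intro y hy
    rcases hw y hy with h | h
    · rw [P.Q_same h, P.b_eq_of_pix h.1 h.2]; simp
    · rw [P.Q_same h, P.b_eq_of_pix h.1 h.2, ← hex]; simp
  · refine ⟨{P.b (k - 1) v, P.b (k - 1) w, (k, P.Q k v)}, Finset.card_le_three, ?_⟩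
    intro y hy
    rcases hw y hy with h | h
    · rw [P.Q_same h, P.b_eq_of_pix h.1 h.2]; simp
    · rw [P.Q_same h, P.b_eq_of_pix h.1 h.2, ← hex]; simp

/-- Lemma F5 -/
lemma Q_near_old {n : ℤ} {q y : ℝ × ℝ} (hq : P.Lat n q) (h : cl (P.u (n + 1)) q y) :
    P.Q (n + 1) y = P.Q (n + 1) q := by
  unfold Q
  rw [P.cell_near_old hq.1 h.1, P.cell_near_old hq.2 h.2]

/-- Lemma T -/
lemma multT {N k : ℤ} (hk : k ≤ N) {v : ℝ × ℝ} (hv : P.Lat N v) (hvk : P.Lat k v)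
    (hvk' : ¬ P.Lat (k - 1) v) :
    ∃ s : Finset Label, s.card ≤ 3 ∧ ∀ y, cl (P.u N) v y → P.b (k - 1) y ∈ s := by
  classical
  obtain ⟨w, hw, -⟩ := P.two (show k - 1 ≤ N by omega) hv hvk'
  have huN := P.u_pos N
  have huk := P.u_anti hk
  have huk1 := P.u_lt_ninth (show k - 1 < k by omega)
  have hk1 := P.u_pos (k - 1)
  have hk2 := P.u_anti (show k - 1 - 1 ≤ k - 1 by omega)
  by_cases h : ∃ y0, cl (P.u N) v y0 ∧ ∃ p, P.Lat (k - 1 - 1) p ∧ In (P.u (k - 1) / 3) p y0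
  · obtain ⟨y0, hy0, p, hp, hpy0⟩ := h
    refine ⟨{(P.kap p, P.Q (P.kap p) v), (P.kap p, P.Q (P.kap p) w), (k - 1, P.Q (k - 1) p)},
      Finset.card_le_three, ?_⟩
    intro y hy
    have hc : cl (P.u (k - 1)) p y := by
      have h1 := In_cl (show P.u (k - 1) / 3 < P.u (k - 1) / 2 by linarith) hpy0
      have h2 := cl_tri (cl_tri h1 (cl_symm hy0)) hy
      exact cl_mono (by linarith) h2
    by_cases hyp : ∃ p', P.Lat (k - 1 - 1) p' ∧ In (P.u (k - 1) / 3) p' y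
    · obtain ⟨p', hp', hpy'⟩ := hyp
      have e : p' = p := by
        apply P.Lat_sep hp' hp
        have h1 := In_cl (show P.u (k - 1) / 3 < P.u (k - 1) / 2 by linarith) hpy'
        have h3 := P.u_lt_ninth (show k - 1 - 1 < k - 1 by omega)
        exact cl_mono (by linarith) (cl_tri hc (cl_symm h1))
      subst e
      rw [P.b_in hp' hpy']
      have hkk : P.kap p' ≤ k - 1 := by have := P.kap_le hp'; omega
      rcases hw y hy with h | h
      · rw [P.Q_same (P.same_mono hkk h)]; simp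
      · rw [P.Q_same (P.same_mono hkk h)]; simp
    · rw [P.b_out hyp]
      have h2 := P.Q_near_old (n := k - 1 - 1) hp (by rwa [sub_add_cancel])
      rw [sub_add_cancel] at h2
      rw [h2]; simp
  · refine ⟨{(k - 1, P.Q (k - 1) v), (k - 1, P.Q (k - 1) w)},
      Finset.card_le_two.trans (by norm_num), ?_⟩
    intro y hy
    have hyp : ¬ ∃ p', P.Lat (k - 1 - 1) p' ∧ In (P.u (k - 1) / 3) p' y := fun hc => h ⟨y, hy, hc⟩
    rw [P.b_out hyp]
    rcases hw y hy with h | h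
    · rw [P.Q_same h]; simp
    · rw [P.Q_same h]; simp

end Par

end Pool.Agent.H983R3
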