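import Pool.Agent.H983R3.Core2

/-! The multiplicity bound: near every point at most three labels occur in two
consecutive levels. -/

namespace Pool.Agent.H983R3

namespace Par

variable (P : Par)

lemma L1_ring {n N : ℤ} (hN : n + 2 ≤ N) {p : ℝ} (hp : P.L1 n p) (s : ℤ) :
    P.L1 N (p + s * (P.u (n + 1) / 3)) := by
  have h1 : P.L1 (n + 1) p := P.L1_succ hp
  have h2 := P.sp_ring (k := n + 2) (p := p) (by
    rw [show n + 2 - 1 = n + 1 by ring]; exact h1) s
  rw [show n + 2 - 1 = n + 1 by ring] at h2
  obtain ⟨a, ha⟩ := h2
  exact P.L1_mono hN ⟨_, ha⟩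

/-- lines at distance less than `rho` from a ring center are at distance at least one
spacing from the ring boundary -/
lemma ring_gap {n N : ℤ} (hN : n + 2 ≤ N) {p v : ℝ} (hp : P.L1 n p) (hv : P.L1 N v)
    (h : |v - p| < P.u (n + 1) / 3) : |v - p| ≤ P.u (n + 1) / 3 - P.u N := by
  have a1 := P.L1_ring hN hp (-1)
  have a2 := P.L1_ring hN hp 1
  have e1 : p + ((-1 : ℤ) : ℝ) * (P.u (n + 1) / 3) = p - P.u (n + 1) / 3 := by push_cast; ring
  have e2 : p + ((1 : ℤ) : ℝ) * (P.u (n + 1) / 3) = p + P.u (n + 1) / 3 := by push_cast; ring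
  rw [e1] at a1; rw [e2] at a2
  rw [abs_lt] at h
  by_contra hcon
  push Not at hcon
  rw [lt_abs] at hcon
  rcases hcon with hc | hc
  · have : v = p + P.u (n + 1) / 3 := by
      apply P.L1_sep hv a2
      rw [abs_lt]; constructor <;> linarith
    linarith
  · have : v = p - P.u (n + 1) / 3 := by
      apply P.L1_sep hv a1
      rw [abs_lt]; constructor <;> linarith
    linarith

lemma ring_gap' {n N : ℤ} (hN : n + 2 ≤ N) {p v : ℝ} (hp : P.L1 n p) (hv : P.L1 N v)
    (h : |v - p| < P.u (n + 1) / 3 + P.u N) : |v - p| ≤ P.u (n + 1) / 3 := by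
  have a1 := P.L1_ring hN hp (-1)
  have a2 := P.L1_ring hN hp 1
  have e1 : p + ((-1 : ℤ) : ℝ) * (P.u (n + 1) / 3) = p - P.u (n + 1) / 3 := by push_cast; ring
  have e2 : p + ((1 : ℤ) : ℝ) * (P.u (n + 1) / 3) = p + P.u (n + 1) / 3 := by push_cast; ring
  rw [e1] at a1; rw [e2] at a2
  rw [abs_lt] at h
  by_contra hcon
  push Not at hcon
  rw [lt_abs] at hcon
  rcases hcon with hc | hc
  · have : v = p + P.u (n + 1) / 3 := by
      apply P.L1_sep hv a2
      rw [abs_lt]; constructor <;> linarith
    linarith
  · have : v = p - P.u (n + 1) / 3 := by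
      apply P.L1_sep hv a1
      rw [abs_lt]; constructor <;> linarith
    linarith

theorem mult (n : ℤ) (v : ℝ × ℝ) (hv : P.Lat (n + 3) v) :
    ∃ s : Finset Label, s.card ≤ 3 ∧
      ∀ y, cl (P.u (n + 3)) v y → P.ell n y ∈ s ∧ P.ell (n + 1) y ∈ s := by
  classical
  have u1 := P.u_pos (n + 1)
  have u2 := P.u_pos (n + 2)
  have u3 := P.u_pos (n + 3)
  have h01 := P.u_lt_ninth (show n < n + 1 by omega)
  have h12 := P.u_lt_ninth (show n + 1 < n + 2 by omega)
  have h23 := P.u_lt_ninth (show n + 2 < n + 3 by omega)
  by_cases hq : ∃ q, P.Lat n q ∧ |v.1 - q.1| ≤ P.u (n + 1) / 3 ∧ |v.2 - q.2| ≤ P.u (n + 1) / 3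
  · obtain ⟨q, hq, hd1, hd2⟩ := hq
    have hcvq : cl (P.u (n + 1) / 2) q v := ⟨by linarith, by linarith⟩
    have hk : P.kap q ≤ n := P.kap_le hq
    have hkl := P.kap_mem hq
    -- points near v have only q as close lattice point
    have huniq : ∀ m, m ≤ n + 1 → ∀ q', P.Lat m q' → ∀ y, cl (P.u (n + 3)) v y →
        cl (P.u (n + 1) / 3) q' y → q' = q := by
      intro m hm q' hq' y hy hy'
      apply P.Lat_sep (n := n + 1) (P.Lat_mono hm hq') (P.Lat_mono (by omega) hq)
      exact cl_mono (by linarith) (cl_tri (cl_tri hcvq hy) (cl_symm hy'))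
    have hbn : ∀ y, cl (P.u (n + 3)) v y → P.b n y = (P.kap q, P.Q (P.kap q) y) := by
      intro y hy
      apply P.b_near hq
      exact cl_mono (by linarith) (cl_tri hcvq hy)
    by_cases hvq : v = q
    · subst hvq
      obtain ⟨s, hs, hs2⟩ := P.multT (show P.kap v ≤ n + 3 by omega) hv hkl (P.kap_not (by omega))
      refine ⟨s, hs, ?_⟩
      intro y hy
      have e1 : P.ell n y = P.b (P.kap v - 1) y := P.ell_in hq (cl_mono (by linarith) hy)
      have e2 : P.ell (n + 1) y = P.b (P.kap v - 1) y := by
        apply P.ell_in (P.Lat_mono (by omega) hq)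
        rw [show n + 1 + 1 = n + 2 by ring]
        exact cl_mono (by linarith) hy
      rw [e1, e2]
      exact ⟨hs2 y hy, hs2 y hy⟩
    · have hvk : ¬ P.Lat (P.kap q) v := by
        intro hc
        apply hvq
        apply P.Lat_sep hc hkl
        have := P.u_anti hk
        exact cl_mono (by linarith) hcvq
      by_cases hin : |v.1 - q.1| < P.u (n + 1) / 3 ∧ |v.2 - q.2| < P.u (n + 1) / 3
      · -- interior of the ring
        obtain ⟨s, hs, hs2⟩ := P.multM (show P.kap q ≤ n + 3 by omega) hv hvk
        refine ⟨s, hs, ?_⟩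
        intro y hy
        have g1 := P.ring_gap (N := n + 3) (by omega) hq.1 hv.1 hin.1
        have g2 := P.ring_gap (N := n + 3) (by omega) hq.2 hv.2 hin.2
        have hcl : cl (P.u (n + 1) / 3) q y := by
          constructor
          · have := abs_sub_le y.1 v.1 q.1; linarith [hy.1]
          · have := abs_sub_le y.2 v.2 q.2; linarith [hy.2]
        have e1 : P.ell n y = P.b (P.kap q - 1) y ∨ P.ell n y = (P.kap q, P.Q (P.kap q) y) := by
          by_cases h : ∃ q', P.Lat n q' ∧ cl (P.u (n + 1) / 9) q' y
          · obtain ⟨q', hq', hy'⟩ := h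
            have := huniq n (by omega) q' hq' y hy (cl_mono (by linarith) hy')
            subst this
            left; exact P.ell_in hq' hy'
          · right
            rw [P.ell_out h, hbn y hy]
        have e2 : P.ell (n + 1) y = P.b (P.kap q - 1) y ∨
            P.ell (n + 1) y = (P.kap q, P.Q (P.kap q) y) := by
          by_cases h : ∃ q', P.Lat (n + 1) q' ∧ cl (P.u (n + 1 + 1) / 9) q' y
          · obtain ⟨q', hq', hy'⟩ := h
            rw [show n + 1 + 1 = n + 2 by ring] at hy'
            have := huniq (n + 1) le_rfl q' hq' y hy (cl_mono (by linarith) hy')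
            subst this
            left
            apply P.ell_in hq'
            rw [show n + 1 + 1 = n + 2 by ring]; exact hy'
          · right
            rw [P.ell_out h]
            apply P.b_in (p := q)
            · rw [show n + 1 - 1 = n by ring]; exact hq
            · exact cl_In hcl
        have hsy := hs2 y hy
        constructor
        · rcases e1 with e | e <;> rw [e]
          · exact hsy.1
          · exact hsy.2
        · rcases e2 with e | e <;> rw [e]
          · exact hsy.1
          · exact hsy.2
      · -- boundary of the ring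
        obtain ⟨w, hw, -⟩ := P.two (show P.kap q ≤ n + 3 by omega) hv hvk
        refine ⟨{(P.kap q, P.Q (P.kap q) v), (P.kap q, P.Q (P.kap q) w),
          (n + 1, P.Q (n + 1) q)}, Finset.card_le_three, ?_⟩
        intro y hy
        have hfar : ¬ cl (P.u (n + 1) / 9) q y := by
          intro hc
          apply hin
          constructor
          · have := abs_sub_le v.1 y.1 q.1
            have h3 : |v.1 - y.1| < P.u (n + 3) := by rw [abs_sub_comm]; exact hy.1
            linarith [hc.1]
          · have := abs_sub_le v.2 y.2 q.2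
            have h3 : |v.2 - y.2| < P.u (n + 3) := by rw [abs_sub_comm]; exact hy.2
            linarith [hc.2]
        have e1 : P.ell n y = (P.kap q, P.Q (P.kap q) y) := by
          rw [P.ell_out, hbn y hy]
          rintro ⟨q', hq', hy'⟩
          have := huniq n (by omega) q' hq' y hy (cl_mono (by linarith) hy')
          subst this
          exact hfar hy'
        have e2 : P.ell (n + 1) y = P.b (n + 1) y := by
          apply P.ell_out
          rintro ⟨q', hq', hy'⟩
          rw [show n + 1 + 1 = n + 2 by ring] at hy'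
          have := huniq (n + 1) le_rfl q' hq' y hy (cl_mono (by linarith) hy')
          subst this
          exact hfar (cl_mono (by linarith) hy')
        have e3 : P.b (n + 1) y = (P.kap q, P.Q (P.kap q) y) ∨
            P.b (n + 1) y = (n + 1, P.Q (n + 1) q) := by
          by_cases h : ∃ p, P.Lat (n + 1 - 1) p ∧ In (P.u (n + 1) / 3) p y
          · obtain ⟨p, hp, hpy⟩ := h
            left
            have hp' : P.Lat n p := by
              rw [show n + 1 - 1 = n by ring] at hp; exact hp
            have : p = q := by
              apply P.Lat_sep (n := n + 1) (P.Lat_mono (by omega) hp') (P.Lat_mono (by omega) hq)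
              have h4 := In_cl (show P.u (n+1) / 3 < P.u (n+1) * (7/18) by linarith) hpy
              exact cl_mono (by linarith) (cl_tri (cl_tri hcvq hy) (cl_symm h4))
            subst this
            exact P.b_in hp hpy
          · right
            rw [P.b_out h]
            rw [P.Q_near_old hq (cl_mono (by linarith) (cl_tri hcvq hy))]
        have hQ : P.Q (P.kap q) y = P.Q (P.kap q) v ∨ P.Q (P.kap q) y = P.Q (P.kap q) w := by
          rcases hw y hy with h | h
          · left; exact P.Q_same h
          · right; exact P.Q_same h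
        constructor
        · rw [e1]
          rcases hQ with h | h <;> rw [h] <;> simp
        · rw [e2]
          rcases e3 with h | h
          · rw [h]
            rcases hQ with h | h <;> rw [h] <;> simp
          · rw [h]; simp
  · -- far from all level n lattice points
    have hfar : ∀ q, P.Lat n q → ∀ y, cl (P.u (n + 3)) v y → ¬ cl (P.u (n + 1) / 9) q y := by
      intro q hq' y hy hc
      apply hq
      refine ⟨q, hq', ?_, ?_⟩
      · have := abs_sub_le v.1 y.1 q.1
        have h3 : |v.1 - y.1| < P.u (n + 3) := by rw [abs_sub_comm]; exact hy.1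
        linarith [hc.1]
      · have := abs_sub_le v.2 y.2 q.2
        have h3 : |v.2 - y.2| < P.u (n + 3) := by rw [abs_sub_comm]; exact hy.2
        linarith [hc.2]
    have hbox : ∀ y, cl (P.u (n + 3)) v y →
        ¬ ∃ p, P.Lat (n + 1 - 1) p ∧ In (P.u (n + 1) / 3) p y := by
      rintro y hy ⟨p, hp, hpy⟩
      rw [show n + 1 - 1 = n by ring] at hp
      apply hq
      have hle := In_le hpy
      refine ⟨p, hp, ?_, ?_⟩
      · apply P.ring_gap' (N := n + 3) (by omega) hp.1 hv.1
        have := abs_sub_le v.1 y.1 p.1
        have h3 : |v.1 - y.1| < P.u (n + 3) := by rw [abs_sub_comm]; exact hy.1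
        linarith [hle.1]
      · apply P.ring_gap' (N := n + 3) (by omega) hp.2 hv.2
        have := abs_sub_le v.2 y.2 p.2
        have h3 : |v.2 - y.2| < P.u (n + 3) := by rw [abs_sub_comm]; exact hy.2
        linarith [hle.2]
    have e1 : ∀ y, cl (P.u (n + 3)) v y → P.ell n y = P.b n y := by
      intro y hy
      apply P.ell_out
      rintro ⟨q, hq', hc⟩
      exact hfar q hq' y hy hc
    by_cases hv1 : P.Lat (n + 1) v
    · have hvn : ¬ P.Lat n v := by
        intro hc
        apply hq
        refine ⟨v, hc, ?_, ?_⟩ <;> simp <;> linarith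
      have hk : P.kap v = n + 1 := by
        apply le_antisymm (P.kap_le hv1)
        by_contra hcon
        push Not at hcon
        exact hvn (P.Lat_mono (by omega) (P.kap_mem hv1))
      obtain ⟨s, hs, hs2⟩ := P.multT (show n + 1 ≤ n + 3 by omega) hv hv1
        (by rw [show n + 1 - 1 = n by ring]; exact hvn)
      rw [show n + 1 - 1 = n by ring] at hs2
      refine ⟨s, hs, ?_⟩
      intro y hy
      have e2 : P.ell (n + 1) y = P.b n y := by
        rw [P.ell_in hv1, hk, show n + 1 - 1 = n by ring]
        rw [show n + 1 + 1 = n + 2 by ring]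
        exact cl_mono (by linarith) hy
      rw [e1 y hy, e2]
      exact ⟨hs2 y hy, hs2 y hy⟩
    · obtain ⟨s, hs, hs2⟩ := P.multM (show n + 1 ≤ n + 3 by omega) hv hv1
      rw [show n + 1 - 1 = n by ring] at hs2
      refine ⟨s, hs, ?_⟩
      intro y hy
      have e2 : P.ell (n + 1) y = P.b n y ∨ P.ell (n + 1) y = (n + 1, P.Q (n + 1) y) := by
        by_cases h : ∃ q', P.Lat (n + 1) q' ∧ cl (P.u (n + 1 + 1) / 9) q' y
        · obtain ⟨q', hq', hy'⟩ := h
          left
          rw [P.ell_in hq' hy']
          rw [show n + 1 + 1 = n + 2 by ring] at hy'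
          have hn' : ¬ P.Lat n q' := by
            intro hc
            exact hfar q' hc y hy (cl_mono (by linarith) hy')
          have hk : P.kap q' = n + 1 := by
            apply le_antisymm (P.kap_le hq')
            by_contra hcon
            push Not at hcon
            exact hn' (P.Lat_mono (by omega) (P.kap_mem hq'))
          rw [hk, show n + 1 - 1 = n by ring]
        · right
          rw [P.ell_out h, P.b_out (hbox y hy)]
      have hsy := hs2 y hy
      rw [e1 y hy]
      refine ⟨hsy.1, ?_⟩
      rcases e2 with e | e <;> rw [e]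
      · exact hsy.1
      · exact hsy.2

end Par

end Pool.Agent.H983R3
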