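import Pool.Agent.H983R3.Core3

/-! The growth bound: at level `n` each label occupies at most linearly many small boxes. -/

namespace Pool.Agent.H983R3

namespace Par

variable (P : Par)

/-- lattice points of level `k` around `c` -/
noncomputable def box (k : ℤ) (c : ℝ × ℝ) (A : ℕ) : Finset (ℝ × ℝ) :=
  ((Finset.Icc (P.pix k c.1 - A) (P.pix k c.1 + A + 1)) ×ˢ
    (Finset.Icc (P.pix k c.2 - A) (P.pix k c.2 + A + 1))).image (fun ij => (P.pt k ij.1, P.pt k ij.2))

lemma box_card (k : ℤ) (c : ℝ × ℝ) (A : ℕ) : (P.box k c A).card ≤ (2 * A + 2) ^ 2 := by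
  unfold box
  refine Finset.card_image_le.trans ?_
  rw [Finset.card_product, Int.card_Icc, Int.card_Icc, sq]
  apply Nat.mul_le_mul <;> omega

lemma mem_Icc_of {k : ℤ} {q c : ℝ} {A : ℕ} (hq : P.L1 k q) (h : |q - c| ≤ A * P.u k) :
    ∃ i ∈ Finset.Icc (P.pix k c - A) (P.pix k c + A + 1), q = P.pt k i := by
  obtain ⟨i, hi⟩ := hq
  refine ⟨i, ?_, ?_⟩
  · have h1 : |P.tau k q - P.tau k c| ≤ A := by
      rw [P.tau_sub, abs_mul, abs_of_pos (zpow_pos P.l_pos k)]
      calc |q - c| * P.l ^ k ≤ (A * P.u k) * P.l ^ k :=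
            mul_le_mul_of_nonneg_right h (zpow_pos P.l_pos _).le
        _ = A * (P.u k * P.l ^ k) := by ring
        _ = A := by rw [P.u_mul]; ring
    rw [hi, abs_le] at h1
    have h2 : (P.pix k c : ℝ) ≤ P.tau k c := Int.floor_le _
    have h3 : P.tau k c < P.pix k c + 1 := Int.lt_floor_add_one _
    rw [Finset.mem_Icc]
    constructor
    · have : ((P.pix k c - A : ℤ) : ℝ) ≤ i := by push_cast; linarith [h1.1]
      exact_mod_cast this
    · have : (i : ℝ) ≤ ((P.pix k c + A + 1 : ℤ) : ℝ) := by push_cast; linarith [h1.2]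
      exact_mod_cast this
  · have h1 : P.tau k q = P.tau k (P.pt k i) := by rw [hi, P.tau_pt]
    exact le_antisymm (P.tau_mono.mpr h1.le) (P.tau_mono.mpr h1.ge)

lemma mem_box {k : ℤ} {q c : ℝ × ℝ} {A : ℕ} (hq : P.Lat k q)
    (h1 : |q.1 - c.1| ≤ A * P.u k) (h2 : |q.2 - c.2| ≤ A * P.u k) : q ∈ P.box k c A := by
  obtain ⟨i, hi, hi'⟩ := P.mem_Icc_of hq.1 h1
  obtain ⟨j, hj, hj'⟩ := P.mem_Icc_of hq.2 h2
  unfold box
  rw [Finset.mem_image]
  refine ⟨(i, j), Finset.mk_mem_product hi hj, ?_⟩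
  exact Prod.ext hi'.symm hj'.symm

lemma mem_box_cl {k : ℤ} {q c : ℝ × ℝ} {A : ℕ} (hq : P.Lat k q)
    (h : cl (A * P.u k) c q) : q ∈ P.box k c A :=
  P.mem_box hq h.1.le h.2.le

lemma cell_close {j : ℤ} {s t : ℝ} (h : P.cell j s = P.cell j t) : |s - t| < 3 * P.u j := by
  unfold cell at h
  have h1 : |P.tau j s - P.tau j t| < 3 := by
    have a1 : (P.pix j s : ℝ) ≤ P.tau j s := Int.floor_le _
    have a2 : P.tau j s < P.pix j s + 1 := Int.lt_floor_add_one _
    have a3 : (P.pix j t : ℝ) ≤ P.tau j t := Int.floor_le _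
    have a4 : P.tau j t < P.pix j t + 1 := Int.lt_floor_add_one _
    have b1 : P.pix j s ≤ P.pix j t + 2 := by omega
    have b2 : P.pix j t ≤ P.pix j s + 2 := by omega
    have c1 : (P.pix j s : ℝ) ≤ P.pix j t + 2 := by exact_mod_cast b1
    have c2 : (P.pix j t : ℝ) ≤ P.pix j s + 2 := by exact_mod_cast b2
    rw [abs_lt]; constructor <;> linarith
  rw [P.tau_sub, abs_mul, abs_of_pos (zpow_pos P.l_pos j)] at h1
  have h2 := P.u_mul j
  have h3 := P.u_pos j
  calc |s - t| = (|s - t| * P.l ^ j) * P.u j := by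
        rw [mul_assoc, mul_comm (P.l ^ j), h2, mul_one]
    _ < 3 * P.u j := mul_lt_mul_of_pos_right h1 h3

lemma Q_close {j : ℤ} {y z : ℝ × ℝ} (h : P.Q j y = P.Q j z) : cl (3 * P.u j) y z := by
  unfold Q at h
  rw [Prod.ext_iff] at h
  constructor
  · rw [abs_sub_comm]; exact P.cell_close h.1
  · rw [abs_sub_comm]; exact P.cell_close h.2

lemma b_cases (n : ℤ) (y : ℝ × ℝ) : P.b n y = (n, P.Q n y) ∨
    ∃ p, P.Lat (n - 1) p ∧ In (P.u n / 3) p y ∧ P.b n y = (P.kap p, P.Q (P.kap p) y) := by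
  by_cases h : ∃ p, P.Lat (n - 1) p ∧ In (P.u n / 3) p y
  · obtain ⟨p, hp, hpy⟩ := h
    exact Or.inr ⟨p, hp, hpy, P.b_in hp hpy⟩
  · exact Or.inl (P.b_out h)

lemma ell_cases (n : ℤ) (y : ℝ × ℝ) : P.ell n y = P.b n y ∨
    ∃ q, P.Lat n q ∧ cl (P.u (n + 1) / 9) q y ∧ P.ell n y = P.b (P.kap q - 1) y := by
  by_cases h : ∃ q, P.Lat n q ∧ cl (P.u (n + 1) / 9) q y
  · obtain ⟨q, hq, hy⟩ := h
    exact Or.inr ⟨q, hq, hy, P.ell_in hq hy⟩
  · exact Or.inl (P.ell_out h)

lemma b_snd (n : ℤ) (y : ℝ × ℝ) : (P.b n y).2 = P.Q (P.b n y).1 y := by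
  rcases P.b_cases n y with h | ⟨p, -, -, h⟩ <;> rw [h]

lemma ell_snd (n : ℤ) (y : ℝ × ℝ) : (P.ell n y).2 = P.Q (P.ell n y).1 y := by
  rcases P.ell_cases n y with h | ⟨q, -, -, h⟩ <;> rw [h] <;> exact P.b_snd _ _

/-- the constant of the linear bound -/
def K (P : Par) : ℕ :=
  (8 * P.lam.toNat + 2) ^ 2 + 100 * (2 * P.lam.toNat + 2) ^ 2 + 200

/-- the covering centers -/
noncomputable def centers (j m n : ℤ) (ys y0 : ℝ × ℝ) : Finset (ℝ × ℝ) :=
  {ys} ∪ P.box j ys 4 ∪ P.box m y0 2 ∪ P.box (j + 1) ys (4 * P.lam.toNat) ∪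
    (Finset.Icc (m + 1) n).biUnion (fun k => (P.box j ys 4).biUnion
      (fun p => P.box k p P.lam.toNat))

lemma centers_card (j m n : ℤ) (hmn : m ≤ n) (ys y0 : ℝ × ℝ) :
    (P.centers j m n ys y0).card ≤ P.K * ((n - m).toNat + 1) := by
  unfold centers
  have h1 := P.box_card j ys 4
  have h2 := P.box_card m y0 2
  have h3 := P.box_card (j + 1) ys (4 * P.lam.toNat)
  have h4 : ((Finset.Icc (m + 1) n).biUnion (fun k => (P.box j ys 4).biUnion
      (fun p => P.box k p P.lam.toNat))).card ≤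
      (n - m).toNat * (100 * (2 * P.lam.toNat + 2) ^ 2) := by
    refine Finset.card_biUnion_le.trans ?_
    refine (Finset.sum_le_card_nsmul _ _ (100 * (2 * P.lam.toNat + 2) ^ 2) ?_).trans ?_
    · intro k _
      refine Finset.card_biUnion_le.trans ?_
      refine (Finset.sum_le_card_nsmul _ _ ((2 * P.lam.toNat + 2) ^ 2) ?_).trans ?_
      · intro p _
        exact P.box_card _ _ _
      · rw [smul_eq_mul]
        exact Nat.mul_le_mul_right _ (h1.trans (by norm_num))
    · rw [smul_eq_mul, Int.card_Icc]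
      apply Nat.mul_le_mul_right
      omega
  refine (Finset.card_union_le _ _).trans ?_
  refine (Nat.add_le_add_right ((Finset.card_union_le _ _).trans
    (Nat.add_le_add_right ((Finset.card_union_le _ _).trans
    (Nat.add_le_add_right (Finset.card_union_le _ _) _)) _)) _).trans ?_
  rw [Finset.card_singleton]
  unfold K
  set x := (n - m).toNat
  set z := (2 * P.lam.toNat + 2) ^ 2
  have h5 : (2 * (4 * P.lam.toNat) + 2) ^ 2 = (8 * P.lam.toNat + 2) ^ 2 := by ring
  rw [h5] at h3
  set w := (8 * P.lam.toNat + 2) ^ 2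
  have h6 : x * (100 * z) ≤ 100 * z * x := by rw [mul_comm]
  have h7 : (w + 100 * z + 200) * (x + 1) = w * x + 100 * z * x + 200 * x + w + 100 * z + 200 := by
    ring
  rw [h7]
  have h8 : 0 ≤ w * x := Nat.zero_le _
  omega

lemma lam_toNat : ((P.lam.toNat : ℕ) : ℝ) = P.l := by
  have := P.nine_le_lam
  unfold l
  have h : ((P.lam.toNat : ℕ) : ℤ) = P.lam := Int.toNat_of_nonneg (by omega)
  exact_mod_cast h

lemma cover (j m n : ℤ) (ab : ℤ × ℤ) (hmn : m ≤ n) (ys y0 y : ℝ × ℝ) (hys : P.Q j ys = ab)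
    (hy0 : |y.1 - y0.1| ≤ P.u m ∧ |y.2 - y0.2| ≤ P.u m) (hy : P.ell n y = (j, ab)) :
    ∃ c ∈ P.centers j m n ys y0, cl (3 * P.u n) c y := by
  have hQ : P.Q j y = P.Q j ys := by
    have := P.ell_snd n y
    rw [hy] at this
    simp only at this
    rw [← this, hys]
  have hyys : cl (3 * P.u j) y ys := P.Q_close hQ
  have un := P.u_pos n
  have un1 := P.u_pos (n + 1)
  have uj := P.u_pos j
  have um := P.u_pos m
  have h01 := P.u_lt_ninth (show n < n + 1 by omega)
  have hmn' := P.u_anti hmn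
  unfold centers
  rcases P.ell_cases n y with h | ⟨q, hq, hqy, h⟩
  · rcases P.b_cases n y with h2 | ⟨p, hp, hpy, h2⟩
    · -- plain label
      rw [h, h2] at hy
      have hj : n = j := congrArg Prod.fst hy
      subst hj
      refine ⟨ys, by simp, cl_symm hyys⟩
    · -- ring label
      rw [h, h2] at hy
      have hj : P.kap p = j := congrArg Prod.fst hy
      have hjn : j ≤ n - 1 := by rw [← hj]; exact P.kap_le hp
      have hpj : P.Lat j p := by rw [← hj]; exact P.kap_mem hp
      have hjn' := P.u_anti (show j ≤ n by omega)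
      have c1 := In_cl (show P.u n / 3 < P.u n / 2 by linarith) hpy
      refine ⟨p, ?_, cl_mono (by linarith) c1⟩
      have : p ∈ P.box j ys 4 := by
        apply P.mem_box_cl hpj
        have := cl_symm (cl_tri c1 hyys)
        apply cl_mono _ this
        push_cast
        linarith
      simp [this]
  · refine ⟨q, ?_, cl_mono (by linarith) hqy⟩
    rw [h] at hy
    by_cases hkm : P.kap q ≤ m
    · have hqm : P.Lat m q := P.Lat_mono hkm (P.kap_mem hq)
      have : q ∈ P.box m y0 2 := by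
        apply P.mem_box hqm
        · have a1 := abs_sub_le q.1 y.1 y0.1
          have a2 : |q.1 - y.1| < P.u (n + 1) / 9 := by rw [abs_sub_comm]; exact hqy.1
          push_cast
          linarith [hy0.1]
        · have a1 := abs_sub_le q.2 y.2 y0.2
          have a2 : |q.2 - y.2| < P.u (n + 1) / 9 := by rw [abs_sub_comm]; exact hqy.2
          push_cast
          linarith [hy0.2]
      simp [this]
    · push Not at hkm
      have hkn : P.kap q ≤ n := P.kap_le hq
      rcases P.b_cases (P.kap q - 1) y with h2 | ⟨p, hp, hpy, h2⟩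
      · rw [h2] at hy
        have hj : P.kap q - 1 = j := congrArg Prod.fst hy
        have hq' : P.Lat (j + 1) q := by
          have := P.kap_mem hq
          rwa [show P.kap q = j + 1 by omega] at this
        have : q ∈ P.box (j + 1) ys (4 * P.lam.toNat) := by
          apply P.mem_box_cl hq'
          have c2 := cl_symm (cl_tri hqy hyys)
          apply cl_mono _ c2
          push_cast
          rw [P.lam_toNat]
          have := P.u_succ j
          have := P.u_anti (show j ≤ n by omega)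
          nlinarith
        simp [this]
      · rw [h2] at hy
        have hj : P.kap p = j := congrArg Prod.fst hy
        have hpj : P.Lat j p := by rw [← hj]; exact P.kap_mem hp
        have hjk : j ≤ P.kap q - 1 - 1 := by rw [← hj]; exact P.kap_le hp
        have uk1 := P.u_pos (P.kap q - 1)
        have c1 := In_cl (show P.u (P.kap q - 1) / 3 < P.u (P.kap q - 1) / 2 by linarith) hpy
        have hp4 : p ∈ P.box j ys 4 := by
          apply P.mem_box_cl hpj
          have := cl_symm (cl_tri c1 hyys)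
          apply cl_mono _ this
          have := P.u_anti (show j ≤ P.kap q - 1 by omega)
          push_cast
          linarith
        have hqk : q ∈ P.box (P.kap q) p P.lam.toNat := by
          apply P.mem_box_cl (P.kap_mem hq)
          rw [P.lam_toNat]
          have c2 := cl_tri c1 (cl_symm hqy)
          apply cl_mono _ c2
          have e1 := P.u_succ (P.kap q - 1)
          rw [sub_add_cancel] at e1
          have e2 := P.u_anti (show P.kap q - 1 ≤ n by omega)
          linarith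
        have : q ∈ (Finset.Icc (m + 1) n).biUnion (fun k => (P.box j ys 4).biUnion
            (fun p => P.box k p P.lam.toNat)) := by
          rw [Finset.mem_biUnion]
          refine ⟨P.kap q, by rw [Finset.mem_Icc]; omega, ?_⟩
          rw [Finset.mem_biUnion]
          exact ⟨p, hp4, hqk⟩
        simp [this]

/-- Growth lemma -/
theorem growth (L : Label) (m n : ℤ) (hmn : m ≤ n) (y0 : ℝ × ℝ) :
    ∃ C : Finset (ℝ × ℝ), C.card ≤ P.K * ((n - m).toNat + 1) ∧
      ∀ y : ℝ × ℝ, |y.1 - y0.1| ≤ P.u m → |y.2 - y0.2| ≤ P.u m → P.ell n y = L →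
        ∃ c ∈ C, cl (3 * P.u n) c y := by
  obtain ⟨j, ab⟩ := L
  by_cases h : ∃ ys, P.Q j ys = ab
  · obtain ⟨ys, hys⟩ := h
    refine ⟨P.centers j m n ys y0, P.centers_card j m n hmn ys y0, ?_⟩
    intro y h1 h2 h3
    exact P.cover j m n ab hmn ys y0 y hys ⟨h1, h2⟩ h3
  · refine ⟨∅, by simp, ?_⟩
    intro y _ _ h3
    exfalso
    apply h
    refine ⟨y, ?_⟩
    have := P.ell_snd n y
    rw [h3] at this
    exact this.symm

end Par

end Pool.Agent.H983R3
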