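import Pool.Agent.H983R3.Main

/-! Final assembly of the cover. -/

namespace Pool.Agent.H983R3

open Filter Topology

lemma exists_par (A : ℝ) : ∃ P : Par, A ≤ P.l := by
  obtain ⟨e, he⟩ := pow_unbounded_of_one_lt A (show (1 : ℝ) < 9 by norm_num)
  have hodd : Odd ((9 : ℤ) ^ (e + 1)) := Odd.pow (by decide)
  obtain ⟨c, hc⟩ := hodd
  refine ⟨⟨9 ^ (e + 1), c, 9 ^ e, hc, by rw [pow_succ]; ring, by positivity⟩, ?_⟩
  unfold Par.l
  simp only
  push_cast
  rw [pow_succ]
  have : (0 : ℝ) < 9 ^ e := by positivity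
  nlinarith

lemma quad_mem {C : ℝ} (hC : 0 ≤ C) : (fun t : ℝ => C * (1 + t) ^ 2) ∈ oPoly 3 := by
  refine ⟨?_, ?_, ?_⟩
  · intro t ht; positivity
  · intro s t hs hst
    simp only
    apply mul_le_mul_of_nonneg_left _ hC
    apply pow_le_pow_left₀ (by linarith) (by linarith)
  · have h1 : Tendsto (fun t : ℝ => 4 * C / t) atTop (𝓝 0) :=
      tendsto_const_nhds.div_atTop tendsto_id
    apply tendsto_of_tendsto_of_tendsto_of_le_of_le' tendsto_const_nhds h1
    · filter_upwards [eventually_ge_atTop 1] with t ht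
      positivity
    · filter_upwards [eventually_ge_atTop 1] with t ht
      have ht0 : 0 < t := by linarith
      rw [div_le_div_iff₀ (by positivity) ht0]
      have h2 : (1 + t) ^ 2 ≤ 4 * t ^ 2 := by nlinarith
      have h3 : C * (1 + t) ^ 2 * t ≤ C * (4 * t ^ 2) * t := by
        apply mul_le_mul_of_nonneg_right _ ht0.le
        exact mul_le_mul_of_nonneg_left h2 hC
      calc C * (1 + t) ^ 2 * t ≤ C * (4 * t ^ 2) * t := h3
        _ = 4 * C * t ^ 3 := by ring

/-- Every uniformly discrete subset of hyperbolic 3-space has, for every `r`, a cover with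
`r`-multiplicity at most `3` whose members have uniformly quadratic growth. -/
theorem cover_quadratic (Z : Set (Hyp 3))
    (hZ : ∃ ε > 0, ∀ x ∈ Z, ∀ y ∈ Z, x ≠ y → ε ≤ hdist x y) (r : ℝ) (hr : 0 < r) :
    ∃ X : Label → Set (Hyp 3), (⋃ i, X i) = Z ∧
      (∀ z ∈ Z, {i | ∃ y ∈ X i, hdist z y ≤ r}.encard ≤ ((2 + 1 : ℕ) : ℕ∞)) ∧
      ∃ C : ℝ, 0 ≤ C ∧ ∀ i, GrowthLE (X i) (fun t => C * (1 + t) ^ 2) := by
  obtain ⟨ε, hε, hsep⟩ := hZ
  obtain ⟨P, hP⟩ := exists_par (Real.exp (2 * r))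
  have hl := P.l_pos
  set W : ℝ := 2 * P.l ^ 3 + 1 with hWd
  have hW1 : 1 ≤ W := by have := pow_pos hl 3; linarith
  have hW0 : 0 < W := by linarith
  obtain ⟨B, hB⟩ := P.packing hW0 hε
  refine ⟨fun L => {z | z ∈ Z ∧ P.lab W z = L}, ?_, ?_, ?_⟩
  · ext z
    simp only [Set.mem_iUnion, Set.mem_ofPred_eq]
    constructor
    · rintro ⟨L, hz, -⟩; exact hz
    · intro hz; exact ⟨_, hz, rfl⟩
  · intro z hz
    obtain ⟨s, hs, hs2⟩ := P.multiplicity hr.le hP (show 2 * P.l ^ 3 < W by linarith) z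
    calc {i | ∃ y ∈ {z | z ∈ Z ∧ P.lab W z = i}, hdist z y ≤ r}.encard ≤ (s : Set Label).encard := by
          apply Set.encard_le_encard
          rintro i ⟨y, ⟨hy, rfl⟩, hd⟩
          exact hs2 y hd
      _ = (s.card : ℕ∞) := Set.encard_coe_eq_coe_finsetCard s
      _ ≤ ((2 + 1 : ℕ) : ℕ∞) := by exact_mod_cast hs
  · refine ⟨9 * (P.K * B : ℕ), by positivity, ?_⟩
    intro L x hx t ht
    set T : ℕ := ⌈t⌉₊ with hT
    have hTt : t ≤ T := Nat.le_ceil t
    have hTt2 : (T : ℝ) < t + 1 := Nat.ceil_lt_add_one ht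
    have hexp : Real.exp t ≤ P.l ^ T := by
      calc Real.exp t ≤ Real.exp T := Real.exp_le_exp.mpr hTt
        _ = (Real.exp 1) ^ T := by rw [← Real.exp_nat_mul]; simp
        _ ≤ P.l ^ T := by
          apply pow_le_pow_left₀ (Real.exp_pos _).le
          have := Real.exp_one_lt_d9
          have := P.nine_le_l
          linarith
    set n0 := P.lev x.h with hn0
    obtain ⟨hx1, hx2⟩ := P.lev_spec x.pos
    rw [← hn0] at hx1 hx2
    set m : ℤ := n0 - T with hm
    have hum : Real.exp t * x.h ≤ P.u m := by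
      calc Real.exp t * x.h ≤ P.l ^ T * P.u n0 :=
            mul_le_mul hexp hx2 x.pos.le (pow_nonneg hl.le _)
        _ = P.u m := by rw [P.u_shift]
    have hstep : ∀ n ∈ Finset.Icc m (m + 2 * T),
        ({y | (y ∈ {z | z ∈ Z ∧ P.lab W z = L} ∧ hdist x y ≤ t) ∧ P.lev y.h = n}.Finite ∧
        {y | (y ∈ {z | z ∈ Z ∧ P.lab W z = L} ∧ hdist x y ≤ t) ∧ P.lev y.h = n}.ncard ≤
          P.K * (2 * T + 1) * B) := by
      intro n hn
      rw [Finset.mem_Icc] at hn
      obtain ⟨Cn, hCn, hcov⟩ := P.growth L m n hn.1 (Par.planar W x)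
      have h1 := fin_union Cn (fun c => P.cluster W Z n c) B
        (S := {y | (y ∈ {z | z ∈ Z ∧ P.lab W z = L} ∧ hdist x y ≤ t) ∧ P.lev y.h = n})
        (fun c _ => hB Z hsep n c) (by
          rintro y ⟨⟨⟨hyZ, hyL⟩, hyt⟩, hyn⟩
          have hc := Par.planar_close hW0 ht hyt
          have hle : Real.exp t * x.h / W ≤ P.u m := by
            rw [div_le_iff₀ hW0]
            have := P.u_pos m
            nlinarith
          obtain ⟨c, hcC, hcl⟩ := hcov (Par.planar W y) (hc.1.trans hle) (hc.2.trans hle) (by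
            unfold Par.lab at hyL
            rw [hyn] at hyL
            exact hyL)
          exact ⟨c, hcC, hyZ, hyn, hcl⟩)
      refine ⟨h1.1, h1.2.trans ?_⟩
      apply Nat.mul_le_mul_right
      refine hCn.trans ?_
      apply Nat.mul_le_mul_left
      omega
    have hall := fin_union (Finset.Icc m (m + 2 * T))
      (fun n => {y | (y ∈ {z | z ∈ Z ∧ P.lab W z = L} ∧ hdist x y ≤ t) ∧ P.lev y.h = n})
      (P.K * (2 * T + 1) * B)
      (S := {y | y ∈ {z | z ∈ Z ∧ P.lab W z = L} ∧ hdist x y ≤ t}) hstep (by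
        rintro y ⟨hyL, hyt⟩
        refine ⟨P.lev y.h, ?_, ⟨hyL, hyt⟩, rfl⟩
        rw [Finset.mem_Icc]
        constructor
        · exact P.le_lev y.pos ((height_le ht hyt).trans hum)
        · have h1 := height_ge ht hyt
          have h2 : P.u (n0 + 1 + T) < y.h := by
            have h3 : P.l ^ T * P.u (n0 + 1 + T) < P.l ^ T * y.h := by
              calc P.l ^ T * P.u (n0 + 1 + T) = P.u (n0 + 1) := by
                    rw [P.u_shift]; congr 1; ring
                _ < x.h := hx1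
                _ ≤ Real.exp t * y.h := h1
                _ ≤ P.l ^ T * y.h := mul_le_mul_of_nonneg_right hexp y.pos.le
            exact lt_of_mul_lt_mul_left h3 (pow_nonneg hl.le _)
          have h4 := P.lev_lt y.pos h2
          omega)
    refine ⟨hall.1, ?_⟩
    have hcard : (Finset.Icc m (m + 2 * T)).card = 2 * T + 1 := by
      rw [Int.card_Icc]; omega
    rw [hcard] at hall
    have h5 : (({y | y ∈ {z | z ∈ Z ∧ P.lab W z = L} ∧ hdist x y ≤ t}.ncard : ℕ) : ℝ) ≤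
        (((2 * T + 1) * (P.K * (2 * T + 1) * B) : ℕ) : ℝ) := by exact_mod_cast hall.2
    refine h5.trans ?_
    push_cast
    have h6 : (2 * (T : ℝ) + 1) ^ 2 ≤ (3 * (1 + t)) ^ 2 := by
      apply pow_le_pow_left₀ (by positivity)
      linarith
    have h7 : (0 : ℝ) ≤ (P.K : ℝ) * B := by positivity
    calc (2 * (T : ℝ) + 1) * (P.K * (2 * T + 1) * B) = (P.K * B) * (2 * (T : ℝ) + 1) ^ 2 := by ring
      _ ≤ (P.K * B) * (3 * (1 + t)) ^ 2 := mul_le_mul_of_nonneg_left h6 h7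
      _ = 9 * (P.K * B) * (1 + t) ^ 2 := by ring

theorem asdimLE_two (Z : Set (Hyp 3)) (hZ : IsNet Z) : AsdimLE (oPoly 3) Z 2 := by
  intro r hr
  obtain ⟨X, h1, h2, C, hC, h3⟩ := cover_quadratic Z hZ.1 r hr
  exact ⟨Label, X, h1, h2, _, quad_mem hC, h3⟩

theorem asdim_le_two (Z : Set (Hyp 3)) (hZ : IsNet Z) : asdim (oPoly 3) Z ≤ 2 := by
  unfold asdim
  exact iInf_le (fun n : {n : ℕ // AsdimLE (oPoly 3) Z n} => ((n : ℕ) : ℕ∞))
    ⟨2, asdimLE_two Z hZ⟩

end Pool.Agent.H983R3
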