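import Pool.Agent.H983R3.Core4

/-! Real hyperbolic space (upper half space model), nets, and asymptotic dimension with
controlled growth. -/

namespace Pool.Agent.H983R3

open Filter Topology

/-- Real hyperbolic `d`-space in the upper half-space model (for `d ≥ 1`): the points
`(x, h)` with `x` in Euclidean `(d-1)`-space and height `h > 0`. -/
structure Hyp (d : ℕ) where
  x : EuclideanSpace ℝ (Fin (d - 1))
  h : ℝ
  pos : 0 < h

/-- The hyperbolic distance: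
`cosh (dist p q) = 1 + (|x_p - x_q|^2 + (h_p - h_q)^2) / (2 h_p h_q)`. -/
noncomputable def hdist {d : ℕ} (p q : Hyp d) : ℝ :=
  Real.arcosh (1 + (‖p.x - q.x‖ ^ 2 + (p.h - q.h) ^ 2) / (2 * p.h * q.h))

/-- A net: a uniformly discrete and coarsely dense subset. -/
def IsNet {d : ℕ} (Z : Set (Hyp d)) : Prop :=
  (∃ ε > 0, ∀ x ∈ Z, ∀ y ∈ Z, x ≠ y → ε ≤ hdist x y) ∧
    ∃ R : ℝ, ∀ x : Hyp d, ∃ y ∈ Z, hdist x y ≤ R

/-- The growth function of the subset `U` is bounded by `f`. -/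
def GrowthLE {d : ℕ} (U : Set (Hyp d)) (f : ℝ → ℝ) : Prop :=
  ∀ x ∈ U, ∀ t : ℝ, 0 ≤ t →
    {y | y ∈ U ∧ hdist x y ≤ t}.Finite ∧ ({y | y ∈ U ∧ hdist x y ≤ t}.ncard : ℝ) ≤ f t

/-- `asdim_F Z ≤ n`: for every `r > 0` there is a cover of `Z` such that every ball of radius
`r` in `Z` meets at most `n + 1` members and one `f ∈ F` bounds the growth of all members. -/
def AsdimLE {d : ℕ} (F : Set (ℝ → ℝ)) (Z : Set (Hyp d)) (n : ℕ) : Prop :=
  ∀ r : ℝ, 0 < r → ∃ (ι : Type) (X : ι → Set (Hyp d)), (⋃ i, X i) = Z ∧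
    (∀ z ∈ Z, {i | ∃ y ∈ X i, hdist z y ≤ r}.encard ≤ ((n + 1 : ℕ) : ℕ∞)) ∧
    ∃ f ∈ F, ∀ i, GrowthLE (X i) f

/-- `asdim_F Z`: the least `n` with `asdim_F Z ≤ n` (infinity if there is none). -/
noncomputable def asdim {d : ℕ} (F : Set (ℝ → ℝ)) (Z : Set (Hyp d)) : ℕ∞ :=
  ⨅ n : {n : ℕ // AsdimLE F Z n}, ((n : ℕ) : ℕ∞)

/-- The family `o(poly(d))`: the non-decreasing functions `f : [0,∞) → [0,∞)` with
`f t / t ^ d → 0`. -/
def oPoly (d : ℕ) : Set (ℝ → ℝ) :=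
  {f | (∀ t, 0 ≤ t → 0 ≤ f t) ∧ (∀ s t, 0 ≤ s → s ≤ t → f s ≤ f t) ∧
    Tendsto (fun t => f t / t ^ d) atTop (𝓝 0)}

section basic

variable {d : ℕ}

lemma arg_ge_one (p q : Hyp d) :
    1 ≤ 1 + (‖p.x - q.x‖ ^ 2 + (p.h - q.h) ^ 2) / (2 * p.h * q.h) := by
  have h1 := p.pos
  have h2 := q.pos
  have : 0 ≤ (‖p.x - q.x‖ ^ 2 + (p.h - q.h) ^ 2) / (2 * p.h * q.h) := by positivity
  linarith

lemma hdist_symm (p q : Hyp d) : hdist p q = hdist q p := by
  unfold hdist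
  rw [norm_sub_rev]
  congr 2
  · congr 1
    · ring
    · ring

lemma hdist_self (p : Hyp d) : hdist p p = 0 := by
  unfold hdist
  simp

lemma hdist_bound {p q : Hyp d} {t : ℝ} (ht : 0 ≤ t) (h : hdist p q ≤ t) :
    ‖p.x - q.x‖ ^ 2 + (p.h - q.h) ^ 2 ≤ p.h * q.h * (Real.exp t + Real.exp (-t) - 2) := by
  have h1 := p.pos
  have h2 := q.pos
  have h3 := arg_ge_one p q
  have h4 : Real.cosh (hdist p q) ≤ Real.cosh t := by
    rw [Real.cosh_le_cosh, abs_of_nonneg ht, abs_of_nonneg]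
    · exact h
    · exact Real.arcosh_nonneg h3
  unfold hdist at h4
  rw [Real.cosh_arcosh h3, Real.cosh_eq] at h4
  have h5 : (‖p.x - q.x‖ ^ 2 + (p.h - q.h) ^ 2) / (2 * p.h * q.h) ≤
      (Real.exp t + Real.exp (-t) - 2) / 2 := by linarith
  rw [div_le_iff₀ (by positivity)] at h5
  linarith

lemma height_le {p q : Hyp d} {t : ℝ} (ht : 0 ≤ t) (h : hdist p q ≤ t) :
    q.h ≤ Real.exp t * p.h := by
  have h0 := hdist_bound ht h
  have h1 := p.pos
  have h2 := q.pos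
  have e1 : Real.exp t * Real.exp (-t) = 1 := by rw [← Real.exp_add]; simp
  have e2 : 1 ≤ Real.exp t := Real.one_le_exp ht
  have e3 : 0 < Real.exp (-t) := Real.exp_pos _
  have e4 : Real.exp (-t) ≤ 1 := by
    rw [Real.exp_le_one_iff]; linarith
  by_contra hcon
  push Not at hcon
  have h3 : 0 ≤ ‖p.x - q.x‖ ^ 2 := by positivity
  have h4 : (q.h - Real.exp t * p.h) * (q.h - Real.exp (-t) * p.h) ≤ 0 := by
    have : (q.h - Real.exp t * p.h) * (q.h - Real.exp (-t) * p.h) =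
        (p.h - q.h) ^ 2 - p.h * q.h * (Real.exp t + Real.exp (-t) - 2) +
        (Real.exp t * Real.exp (-t) - 1) * p.h ^ 2 := by ring
    rw [this, e1]
    linarith
  have h5 : Real.exp (-t) * p.h ≤ Real.exp t * p.h := by
    apply mul_le_mul_of_nonneg_right (by linarith) h1.le
  have h6 : 0 < (q.h - Real.exp t * p.h) * (q.h - Real.exp (-t) * p.h) :=
    mul_pos (by linarith) (by linarith)
  linarith

lemma height_ge {p q : Hyp d} {t : ℝ} (ht : 0 ≤ t) (h : hdist p q ≤ t) :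
    p.h ≤ Real.exp t * q.h := height_le ht (by rwa [hdist_symm])

lemma horiz_le {p q : Hyp d} {t : ℝ} (ht : 0 ≤ t) (h : hdist p q ≤ t) :
    ‖p.x - q.x‖ ≤ Real.exp t * p.h := by
  have h0 := hdist_bound ht h
  have h1 := p.pos
  have h2 := q.pos
  have h3 := height_le ht h
  have e4 : Real.exp (-t) ≤ 1 := by
    rw [Real.exp_le_one_iff]; linarith
  have e5 := Real.exp_pos t
  have h4 : ‖p.x - q.x‖ ^ 2 ≤ (Real.exp t * p.h) ^ 2 := by
    have h5 : p.h * q.h * (Real.exp t + Real.exp (-t) - 2) ≤ p.h * q.h * Real.exp t := by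
      apply mul_le_mul_of_nonneg_left (by linarith) (by positivity)
    have h6 : p.h * q.h * Real.exp t ≤ p.h * (Real.exp t * p.h) * Real.exp t := by
      apply mul_le_mul_of_nonneg_right _ e5.le
      exact mul_le_mul_of_nonneg_left h3 h1.le
    nlinarith [sq_nonneg (p.h - q.h)]
  exact abs_le_of_sq_le_sq' h4 (by positivity) |>.2

lemma hdist_lt {p q : Hyp d} {ε : ℝ} (hε : 0 < ε)
    (h : ‖p.x - q.x‖ ^ 2 + (p.h - q.h) ^ 2 < 2 * p.h * q.h * (Real.cosh ε - 1)) :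
    hdist p q < ε := by
  have h1 := p.pos
  have h2 := q.pos
  unfold hdist
  rw [← Real.arcosh_cosh hε.le]
  rw [Real.arcosh_lt_arcosh]
  · have : (‖p.x - q.x‖ ^ 2 + (p.h - q.h) ^ 2) / (2 * p.h * q.h) < Real.cosh ε - 1 := by
      rw [div_lt_iff₀ (by positivity)]; linarith
    linarith
  · have := arg_ge_one p q
    linarith
  · exact Real.cosh_pos _

/-- Nets exist. -/
lemma exists_net (d : ℕ) : ∃ Z : Set (Hyp d), IsNet Z := by
  let S : Set (Set (Hyp d)) := {Z | ∀ x ∈ Z, ∀ y ∈ Z, x ≠ y → 1 ≤ hdist x y}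
  obtain ⟨M, hM⟩ := zorn_subset S (by
    intro c hc hchain
    refine ⟨⋃₀ c, ?_, fun s hs => Set.subset_sUnion_of_mem hs⟩
    rintro x ⟨s, hs, hxs⟩ y ⟨t, ht, hyt⟩ hxy
    rcases hchain.total hs ht with h | h
    · exact hc ht x (h hxs) y hyt hxy
    · exact hc hs x hxs y (h hyt) hxy)
  refine ⟨M, ⟨1, one_pos, hM.prop⟩, 1, ?_⟩
  intro x
  by_contra hcon
  push Not at hcon
  have hins : insert x M ∈ S := by
    intro a ha b hb hab
    rcases Set.mem_insert_iff.mp ha with ha1 | ha1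
    · rcases Set.mem_insert_iff.mp hb with hb1 | hb1
      · exact absurd (ha1.trans hb1.symm) hab
      · rw [ha1]; exact (hcon b hb1).le
    · rcases Set.mem_insert_iff.mp hb with hb1 | hb1
      · rw [hdist_symm, hb1]; exact (hcon a ha1).le
      · exact hM.prop a ha1 b hb1 hab
  have hsub := hM.le_of_ge hins (Set.subset_insert x M)
  have hx : x ∈ M := hsub (Set.mem_insert x M)
  have := hcon x hx
  rw [hdist_self] at this
  linarith

end basic

end Pool.Agent.H983R3
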