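import Pool.Agent.H983R3.Hyp

/-! Assembly: the cover of hyperbolic 3-space. -/

namespace Pool.Agent.H983R3

open Filter Topology

section counting

lemma fin_of_inj {α β : Type*} {A : Set α} {s : Finset β} (f : α → β) (hf : ∀ a ∈ A, f a ∈ s)
    (inj : Set.InjOn f A) : A.Finite ∧ A.ncard ≤ s.card := by
  constructor
  · exact Set.Finite.of_finite_image (s.finite_toSet.subset (by
      rintro _ ⟨a, ha, rfl⟩; exact hf a ha)) inj
  · rw [← Set.ncard_coe_finset s]
    exact Set.ncard_le_ncard_of_injOn f (fun a ha => hf a ha) inj s.finite_toSet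

lemma fin_union {α ι : Type*} (I : Finset ι) (A : ι → Set α) (B : ℕ) {S : Set α}
    (hA : ∀ i ∈ I, (A i).Finite ∧ (A i).ncard ≤ B) (hS : ∀ x ∈ S, ∃ i ∈ I, x ∈ A i) :
    S.Finite ∧ S.ncard ≤ I.card * B := by
  classical
  have hfin : (⋃ i ∈ I, A i).Finite := by
    apply Set.Finite.biUnion I.finite_toSet
    intro i hi; exact (hA i hi).1
  have hsub : S ⊆ ⋃ i ∈ I, A i := by
    intro x hx
    obtain ⟨i, hi, hxi⟩ := hS x hx
    simp only [Set.mem_iUnion]
    exact ⟨i, hi, hxi⟩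
  refine ⟨hfin.subset hsub, (Set.ncard_le_ncard hsub hfin).trans ?_⟩
  clear hsub hS
  induction I using Finset.induction_on with
  | empty => simp
  | insert a I ha ih =>
    have h1 : (⋃ i ∈ insert a I, A i) = A a ∪ ⋃ i ∈ I, A i := by
      simp [Set.iUnion_or, Set.iUnion_union_distrib]
    rw [h1]
    have h2 : (⋃ i ∈ I, A i).Finite := by
      apply Set.Finite.biUnion I.finite_toSet
      intro i hi; exact (hA i (Finset.mem_insert_of_mem hi)).1
    have h3 := ih (fun i hi => hA i (Finset.mem_insert_of_mem hi)) h2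
    have h4 := (hA a (Finset.mem_insert_self a I)).2
    refine (Set.ncard_union_le _ _).trans ?_
    rw [Finset.card_insert_of_notMem ha, add_mul, one_mul]
    omega

end counting

namespace Par

variable (P : Par)

lemma exists_level {h : ℝ} (hp : 0 < h) : ∃ n : ℤ, P.u (n + 1) < h ∧ h ≤ P.u n := by
  obtain ⟨m, h1, h2⟩ := exists_mem_Ioc_zpow hp (show (1 : ℝ) < P.l by
    have := P.nine_le_l; linarith)
  refine ⟨-(m + 1), ?_, ?_⟩
  · unfold u; rw [show -(-(m + 1) + 1) = m by ring]; exact h1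
  · unfold u; rw [neg_neg]; exact h2

open Classical in
/-- the level of a height -/
noncomputable def lev (h : ℝ) : ℤ := if hp : 0 < h then (P.exists_level hp).choose else 0

lemma lev_spec {h : ℝ} (hp : 0 < h) : P.u (P.lev h + 1) < h ∧ h ≤ P.u (P.lev h) := by
  unfold lev; rw [dif_pos hp]; exact (P.exists_level hp).choose_spec

lemma u_strict {m n : ℤ} (h : P.u n < P.u m) : m < n := by
  by_contra hc
  push Not at hc
  have := P.u_anti hc
  linarith

lemma le_lev {h : ℝ} (hp : 0 < h) {n : ℤ} (h1 : h ≤ P.u n) : n ≤ P.lev h := by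
  have := P.u_strict ((P.lev_spec hp).1.trans_le h1)
  omega

lemma lev_lt {h : ℝ} (hp : 0 < h) {n : ℤ} (h1 : P.u n < h) : P.lev h < n :=
  P.u_strict (h1.trans_le (P.lev_spec hp).2)

lemma u_shift (n : ℤ) (k : ℕ) : P.l ^ k * P.u n = P.u (n - k) := by
  unfold u
  rw [← zpow_natCast, ← zpow_add₀ P.l_ne]
  congr 1; ring

/-- scaled horizontal position -/
noncomputable def planar (W : ℝ) (p : Hyp 3) : ℝ × ℝ :=
  (p.x (⟨0, by norm_num⟩ : Fin (3 - 1)) / W, p.x (⟨1, by norm_num⟩ : Fin (3 - 1)) / W)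

/-- the label of a point -/
noncomputable def lab (W : ℝ) (p : Hyp 3) : Label := P.ell (P.lev p.h) (planar W p)

lemma coord_le (v : EuclideanSpace ℝ (Fin (3 - 1))) (i : Fin (3 - 1)) : |v i| ≤ ‖v‖ := by
  have := PiLp.norm_apply_le v i
  simpa using this

lemma norm_sq_two (v : EuclideanSpace ℝ (Fin (3 - 1))) :
    ‖v‖ ^ 2 = (v (⟨0, by norm_num⟩ : Fin (3 - 1))) ^ 2 + (v (⟨1, by norm_num⟩ : Fin (3 - 1))) ^ 2 := by
  rw [EuclideanSpace.norm_sq_eq]
  have h := Fin.sum_univ_two (fun i : Fin 2 => ‖v i‖ ^ 2)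
  simp only [Real.norm_eq_abs, sq_abs] at h ⊢
  exact h

lemma planar_close {W : ℝ} (hW : 0 < W) {p q : Hyp 3} {t : ℝ} (ht : 0 ≤ t) (h : hdist p q ≤ t) :
    |(planar W q).1 - (planar W p).1| ≤ Real.exp t * p.h / W ∧
    |(planar W q).2 - (planar W p).2| ≤ Real.exp t * p.h / W := by
  have h1 := horiz_le ht h
  rw [norm_sub_rev] at h1
  unfold planar
  constructor
  · simp only
    rw [← sub_div, abs_div, abs_of_pos hW]
    apply div_le_div_of_nonneg_right _ hW.le
    exact (coord_le (q.x - p.x) _).trans h1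
  · simp only
    rw [← sub_div, abs_div, abs_of_pos hW]
    apply div_le_div_of_nonneg_right _ hW.le
    exact (coord_le (q.x - p.x) _).trans h1

/-- nearest lattice line -/
lemma nearest (n : ℤ) (t : ℝ) : ∃ v, P.L1 n v ∧ |t - v| ≤ P.u n / 2 := by
  refine ⟨P.pt n (round (P.tau n t)), P.L1_pt _ _, ?_⟩
  have h := abs_sub_round (P.tau n t)
  have h1 : P.tau n t - round (P.tau n t) = (t - P.pt n (round (P.tau n t))) * P.l ^ n := by
    rw [← P.tau_sub, P.tau_pt]
  rw [h1, abs_mul, abs_of_pos (zpow_pos P.l_pos n)] at h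
  have h2 := P.u_mul n
  have h3 := P.u_pos n
  calc |t - P.pt n (round (P.tau n t))| =
      (|t - P.pt n (round (P.tau n t))| * P.l ^ n) * P.u n := by
        rw [mul_assoc, mul_comm (P.l ^ n), h2, mul_one]
    _ ≤ 1 / 2 * P.u n := mul_le_mul_of_nonneg_right h h3.le
    _ = P.u n / 2 := by ring

theorem multiplicity {r W : ℝ} (hr : 0 ≤ r) (hl : Real.exp (2 * r) ≤ P.l)
    (hW : 2 * P.l ^ 3 < W) (z0 : Hyp 3) :
    ∃ s : Finset Label, s.card ≤ 3 ∧ ∀ z : Hyp 3, hdist z0 z ≤ r → P.lab W z ∈ s := by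
  have hWpos : 0 < W := by have := pow_pos P.l_pos 3; linarith
  have hz0 := z0.pos
  have he := Real.exp_pos r
  have hh : 0 < Real.exp r * z0.h := by positivity
  set n := P.lev (Real.exp r * z0.h) with hn
  obtain ⟨s1, s2⟩ := P.lev_spec hh
  rw [← hn] at s1 s2
  obtain ⟨v1, hv1, hv1'⟩ := P.nearest (n + 3) (planar W z0).1
  obtain ⟨v2, hv2, hv2'⟩ := P.nearest (n + 3) (planar W z0).2
  obtain ⟨s, hs, hs2⟩ := P.mult n (v1, v2) ⟨hv1, hv2⟩
  refine ⟨s, hs, ?_⟩
  intro z hz
  have u3 := P.u_pos (n + 3)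
  have hclose := planar_close hWpos hr hz
  have hsmall : Real.exp r * z0.h / W < P.u (n + 3) / 2 := by
    rw [div_lt_iff₀ hWpos]
    have h1 : P.l ^ 3 * P.u (n + 3) = P.u n := by
      rw [P.u_shift]; congr 1; push_cast; ring
    calc Real.exp r * z0.h ≤ P.u n := s2
      _ = P.l ^ 3 * P.u (n + 3) := h1.symm
      _ = P.u (n + 3) / 2 * (2 * P.l ^ 3) := by ring
      _ < P.u (n + 3) / 2 * W := mul_lt_mul_of_pos_left hW (by linarith)
  have hcl : cl (P.u (n + 3)) (v1, v2) (planar W z) := by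
    constructor
    · have := abs_sub_le (planar W z).1 (planar W z0).1 v1
      simp only
      linarith [hclose.1]
    · have := abs_sub_le (planar W z).2 (planar W z0).2 v2
      simp only
      linarith [hclose.2]
  have hzp := z.pos
  have hlev1 : n ≤ P.lev z.h := by
    apply P.le_lev hzp
    exact (height_le hr hz).trans s2
  have hlev2 : P.lev z.h < n + 2 := by
    apply P.lev_lt hzp
    have h1 := height_ge hr hz
    have h2 : P.u (n + 1) = P.l * P.u (n + 2) := by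
      have := P.u_succ (n + 1)
      rwa [show n + 1 + 1 = n + 2 by ring] at this
    have h3 : Real.exp (2 * r) = Real.exp r * Real.exp r := by
      rw [← Real.exp_add]; congr 1; ring
    have h4 : P.l * P.u (n + 2) < P.l * z.h := by
      calc P.l * P.u (n + 2) = P.u (n + 1) := h2.symm
        _ < Real.exp r * z0.h := s1
        _ ≤ Real.exp r * (Real.exp r * z.h) := mul_le_mul_of_nonneg_left h1 he.le
        _ = Real.exp (2 * r) * z.h := by rw [h3]; ring
        _ ≤ P.l * z.h := mul_le_mul_of_nonneg_right hl hzp.le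
    exact lt_of_mul_lt_mul_left h4 P.l_pos.le
  have hboth := hs2 (planar W z) hcl
  unfold lab
  rcases (show P.lev z.h = n ∨ P.lev z.h = n + 1 by omega) with h | h
  · rw [h]; exact hboth.1
  · rw [h]; exact hboth.2

/-- the points of `Z` of level `n` near a planar point -/
def cluster (W : ℝ) (Z : Set (Hyp 3)) (n : ℤ) (c : ℝ × ℝ) : Set (Hyp 3) :=
  {z | z ∈ Z ∧ P.lev z.h = n ∧ cl (3 * P.u n) c (planar W z)}

lemma floor_mem {a b x s : ℝ} (hs : 0 < s) (h1 : a ≤ x) (h2 : x ≤ b) {M : ℕ}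
    (hM : (b - a) / s ≤ M) : ⌊x / s⌋ ∈ Finset.Icc ⌊a / s⌋ (⌊a / s⌋ + (M : ℤ) + 1) := by
  rw [Finset.mem_Icc]
  constructor
  · exact Int.floor_le_floor (div_le_div_of_nonneg_right h1 hs.le)
  · have h3 : x / s ≤ a / s + M := by
      have : x / s ≤ b / s := div_le_div_of_nonneg_right h2 hs.le
      have e : b / s = a / s + (b - a) / s := by ring
      linarith
    have h4 : a / s < ⌊a / s⌋ + 1 := Int.lt_floor_add_one _
    have h5 : (⌊x / s⌋ : ℝ) ≤ x / s := Int.floor_le _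
    have h6 : ((⌊x / s⌋ : ℤ) : ℝ) < ((⌊a / s⌋ + (M : ℤ) + 1 : ℤ) : ℝ) := by
      push_cast; linarith
    have h7 : ⌊x / s⌋ < ⌊a / s⌋ + (M : ℤ) + 1 := by exact_mod_cast h6
    omega

lemma floor_close {x y s : ℝ} (hs : 0 < s) (h : ⌊x / s⌋ = ⌊y / s⌋) : |x - y| < s := by
  have h1 := Int.abs_sub_lt_one_of_floor_eq_floor h
  rw [← sub_div, abs_div, abs_of_pos hs, div_lt_one hs] at h1
  exact h1

theorem packing {W ε : ℝ} (hW : 0 < W) (hε : 0 < ε) : ∃ B : ℕ, ∀ (Z : Set (Hyp 3)),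
    (∀ x ∈ Z, ∀ y ∈ Z, x ≠ y → ε ≤ hdist x y) → ∀ (n : ℤ) (c : ℝ × ℝ),
    (P.cluster W Z n c).Finite ∧ (P.cluster W Z n c).ncard ≤ B := by
  have hκ : 0 < Real.cosh ε - 1 := by
    have := (Real.one_lt_cosh (x := ε)).2 hε.ne'; linarith
  set κ := Real.cosh ε - 1 with hκd
  set σ := min 1 (κ / 2) with hσd
  have hσ : 0 < σ := lt_min one_pos (by linarith)
  have hσ1 : σ ≤ 1 := min_le_left _ _
  have hσ2 : σ ≤ κ / 2 := min_le_right _ _
  obtain ⟨M1, hM1⟩ := exists_nat_ge (6 * W * P.l / σ)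
  obtain ⟨M2, hM2⟩ := exists_nat_ge (P.l / σ)
  refine ⟨(M1 + 2) * ((M1 + 2) * (M2 + 2)), ?_⟩
  intro Z hZ n c
  have hu1 := P.u_pos (n + 1)
  have hu := P.u_pos n
  set s := σ * P.u (n + 1) with hsd
  have hs : 0 < s := by positivity
  have hun : P.u n = P.l * P.u (n + 1) := P.u_succ n
  have hratio : P.u n / s = P.l / σ := by
    rw [hun, hsd]; field_simp
  let i0 : Fin (3 - 1) := ⟨0, by norm_num⟩
  let i1 : Fin (3 - 1) := ⟨1, by norm_num⟩
  have key := fin_of_inj (A := P.cluster W Z n c)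
    (s := (Finset.Icc ⌊(W * (c.1 - 3 * P.u n)) / s⌋ (⌊(W * (c.1 - 3 * P.u n)) / s⌋ + (M1 : ℤ) + 1)) ×ˢ
      ((Finset.Icc ⌊(W * (c.2 - 3 * P.u n)) / s⌋ (⌊(W * (c.2 - 3 * P.u n)) / s⌋ + (M1 : ℤ) + 1)) ×ˢ
      (Finset.Icc ⌊(0 : ℝ) / s⌋ (⌊(0 : ℝ) / s⌋ + (M2 : ℤ) + 1))))
    (fun z => (⌊z.x i0 / s⌋, ⌊z.x i1 / s⌋, ⌊z.h / s⌋)) ?_ ?_
  · refine ⟨key.1, key.2.trans ?_⟩
    rw [Finset.card_product, Finset.card_product, Int.card_Icc, Int.card_Icc, Int.card_Icc]
    apply Nat.mul_le_mul (by omega)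
    apply Nat.mul_le_mul (by omega) (by omega)
  · rintro z ⟨hzZ, hzl, hzc⟩
    have hsp := P.lev_spec z.pos
    rw [hzl] at hsp
    have hc1 := hzc.1
    have hc2 := hzc.2
    rw [abs_lt] at hc1 hc2
    have hx0 : z.x i0 = W * (planar W z).1 := by
      unfold planar; simp only; field_simp; rfl
    have hx1 : z.x i1 = W * (planar W z).2 := by
      unfold planar; simp only; field_simp; rfl
    have hlen : (6 * W * P.u n) / s ≤ M1 := by
      have : (6 * W * P.u n) / s = 6 * W * P.l / σ := by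
        rw [mul_div_assoc, hratio]; ring
      rw [this]; exact hM1
    rw [Finset.mem_product, Finset.mem_product]
    refine ⟨?_, ?_, ?_⟩
    · apply floor_mem hs (b := W * (c.1 + 3 * P.u n))
      · simp only; rw [hx0]; exact mul_le_mul_of_nonneg_left (by linarith) hW.le
      · simp only; rw [hx0]; exact mul_le_mul_of_nonneg_left (by linarith) hW.le
      · have : W * (c.1 + 3 * P.u n) - W * (c.1 - 3 * P.u n) = 6 * W * P.u n := by ring
        rw [this]; exact hlen
    · apply floor_mem hs (b := W * (c.2 + 3 * P.u n))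
      · simp only; rw [hx1]; exact mul_le_mul_of_nonneg_left (by linarith) hW.le
      · simp only; rw [hx1]; exact mul_le_mul_of_nonneg_left (by linarith) hW.le
      · have : W * (c.2 + 3 * P.u n) - W * (c.2 - 3 * P.u n) = 6 * W * P.u n := by ring
        rw [this]; exact hlen
    · apply floor_mem hs (b := P.u n)
      · exact z.pos.le
      · exact hsp.2
      · rw [sub_zero, hratio]; exact hM2
  · rintro z ⟨hzZ, hzl, hzc⟩ w ⟨hwZ, hwl, hwc⟩ hzw
    simp only [Prod.mk.injEq] at hzw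
    obtain ⟨e0, e1, e2⟩ := hzw
    have d0 := floor_close hs e0
    have d1 := floor_close hs e1
    have d2 := floor_close hs e2
    by_contra hne
    have hge := hZ z hzZ w hwZ hne
    have hz1 := (P.lev_spec z.pos).1
    have hw1 := (P.lev_spec w.pos).1
    rw [hzl] at hz1
    rw [hwl] at hw1
    have hlt : hdist z w < ε := by
      apply hdist_lt hε
      rw [norm_sq_two]
      have a0 : (z.x i0 - w.x i0) ^ 2 < s ^ 2 := by
        rw [← sq_abs (z.x i0 - w.x i0)]
        exact pow_lt_pow_left₀ d0 (abs_nonneg _) (by norm_num)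
      have a1 : (z.x i1 - w.x i1) ^ 2 < s ^ 2 := by
        rw [← sq_abs (z.x i1 - w.x i1)]
        exact pow_lt_pow_left₀ d1 (abs_nonneg _) (by norm_num)
      have a2 : (z.h - w.h) ^ 2 < s ^ 2 := by
        rw [← sq_abs (z.h - w.h)]
        exact pow_lt_pow_left₀ d2 (abs_nonneg _) (by norm_num)
      have b1 : P.u (n + 1) * P.u (n + 1) ≤ z.h * w.h :=
        mul_le_mul hz1.le hw1.le hu1.le z.pos.le
      have b2 : 3 * s ^ 2 ≤ 2 * (P.u (n + 1) * P.u (n + 1)) * κ := by
        rw [hsd]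
        have : 3 * (σ * P.u (n + 1)) ^ 2 = 3 * σ ^ 2 * (P.u (n + 1) * P.u (n + 1)) := by ring
        rw [this]
        have h3 : 3 * σ ^ 2 ≤ 2 * κ := by nlinarith
        have h4 : 0 ≤ P.u (n + 1) * P.u (n + 1) := by positivity
        nlinarith
      have b3 : 2 * (P.u (n + 1) * P.u (n + 1)) * κ ≤ 2 * z.h * w.h * κ := by
        have : 2 * z.h * w.h * κ = 2 * (z.h * w.h) * κ := by ring
        rw [this]
        apply mul_le_mul_of_nonneg_right _ hκ.le
        linarith
      have c0 : (z.x - w.x) (⟨0, by norm_num⟩ : Fin (3 - 1)) = z.x i0 - w.x i0 := rfl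
      have c1 : (z.x - w.x) (⟨1, by norm_num⟩ : Fin (3 - 1)) = z.x i1 - w.x i1 := rfl
      rw [c0, c1]
      linarith
    linarith

end Par

end Pool.Agent.H983R3
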